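import Pool.Agent.Q269.GJ.StL
import Pool.Agent.Q24.GR.LAU

/-!
# Project GJ (helper269): the space `W0`, generators of subspaces, the condition on the weights
-/

set_option autoImplicit false
set_option linter.all false

open scoped Classical
open Finset

namespace Pool.Agent.Q241.GJ

open Pool.Agent.Q269.GR (F2 cf ts)
open Pool.Agent.Q269.GJ
open Pool.Agent.Q24.GR.LAU (charP2 Q_pow Q_two add_pow_Q pow_QQ ts_Q ts_add ts_zero abs_ts
  ts_sum ts_nd char_sum)

section two

variable {F : Type} [Field F] [Algebra F2 F]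

theorem two_zero (x : F) : x + x = 0 := by
  have h1 : (algebraMap F2 F) (1 + 1) = 0 := by
    have : (1 : F2) + 1 = 0 := by decide
    rw [this, map_zero]
  rw [map_add, map_one] at h1
  calc x + x = (1 + 1) * x := by ring
    _ = 0 := by rw [h1, zero_mul]

theorem eq_of_add_zero {x y : F} (h : x + y = 0) : x = y := by
  calc x = x + (y + y) := by rw [two_zero, add_zero]
    _ = (x + y) + y := by ring
    _ = y := by rw [h, zero_add]

end two

section dims

variable {F : Type} [Field F] {n : ℕ}

/-- the sum -/
noncomputable def sm (n : ℕ) (F : Type) [Field F] : (Fin n → F) →ₗ[F] F :=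
  ∑ l, LinearMap.proj l

theorem sm_apply (v : Fin n → F) : sm n F v = ∑ l, v l := by
  unfold sm
  rw [LinearMap.sum_apply]
  rfl

theorem ker_sm : LinearMap.ker (sm n F) = W0 n F := by
  ext v
  rw [LinearMap.mem_ker, sm_apply]
  rfl

theorem finrank_W0 (hn : 1 ≤ n) : Module.finrank F (W0 n F) = n - 1 := by
  have h1 := LinearMap.finrank_range_add_finrank_ker (sm n F)
  have h2 : LinearMap.range (sm n F) = ⊤ := by
    rw [LinearMap.range_eq_top]
    intro c
    refine ⟨Pi.single ⟨0, hn⟩ c, ?_⟩
    rw [sm_apply]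
    simp
  rw [h2, finrank_top, ker_sm, Module.finrank_self] at h1
  have h3 : Module.finrank F (Fin n → F) = n := by simp
  omega

theorem card_mod [Fintype F] (W : Type) [AddCommGroup W] [Module F W] [Finite W] :
    Nat.card W = Fintype.card F ^ Module.finrank F W := by
  have := Fintype.ofFinite W
  rw [Nat.card_eq_fintype_card]
  exact Module.card_eq_pow_finrank

theorem card_W0 [Fintype F] (hn : 1 ≤ n) : Fintype.card (W0 n F) = Fintype.card F ^ (n - 1) := by
  rw [← Nat.card_eq_fintype_card, card_mod (F := F), finrank_W0 hn]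

theorem card_V [Fintype F] (hn : 1 ≤ n) :
    Fintype.card (V n F) = Fintype.card F ^ (2 * (n - 1)) := by
  simp only [V, Fintype.card_prod]
  rw [card_W0 hn, ← pow_add]
  congr 1
  ring

/-- the vector `e_a + e_b` -/
noncomputable def eab [Algebra F2 F] (a b : Fin n) : W0 n F :=
  ⟨Pi.single a 1 + Pi.single b 1, by
    show ∑ l, (Pi.single a (1 : F) + Pi.single b (1 : F) : Fin n → F) l = 0
    simp only [Pi.add_apply, sum_add_distrib]
    rw [Finset.sum_pi_single', Finset.sum_pi_single']
    simp only [mem_univ, if_true]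
    exact two_zero 1⟩

theorem const_W0 [Algebra F2 F] (hn : Odd n) {w : W0 n F} (h : ∀ a b, w.1 a = w.1 b) : w = 0 := by
  obtain ⟨k, hk⟩ := hn
  have hn0 : 0 < n := by omega
  have h1 := W0_sum w
  have h2 : ∑ l, w.1 l = w.1 ⟨0, hn0⟩ := by
    rw [sum_congr rfl fun l _ => h l ⟨0, hn0⟩, sum_const, card_univ, Fintype.card_fin]
    have h3 : ∀ c : F, n • c = c := by
      intro c
      rw [hk, nsmul_eq_mul]
      push_cast
      have : (2 * (k : F) + 1) * c = k * c + k * c + c := by ring
      rw [this, two_zero, zero_add]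
    exact h3 _
  rw [h2] at h1
  refine Subtype.ext (funext fun l => ?_)
  rw [h l ⟨0, hn0⟩, h1]
  rfl

end dims

section gens

variable {F : Type} [Field F] {E : Type} [AddCommGroup E] [Module F E]

/-- a subspace of dimension at most `k` is spanned by `k` vectors -/
theorem exists_gens [Module.Finite F E] (W : Submodule F E) {k : ℕ} (hk : Module.finrank F W ≤ k) :
    ∃ u : Fin k → E, Submodule.span F (Set.range u) = W := by
  obtain ⟨b, hb⟩ : ∃ b : Fin (Module.finrank F W) → E, Submodule.span F (Set.range b) = W := by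
    refine ⟨fun i => ((Module.finBasis F W) i : E), ?_⟩
    have h1 := (Module.finBasis F W).span_eq
    have h3 := congrArg (Submodule.map W.subtype) h1
    rw [Submodule.map_span, Submodule.map_top, Submodule.range_subtype, ← Set.range_comp] at h3
    exact h3
  refine ⟨fun j => if h : (j : ℕ) < Module.finrank F W then b ⟨j, h⟩ else 0, ?_⟩
  apply le_antisymm
  · rw [Submodule.span_le]
    rintro x ⟨j, rfl⟩
    beta_reduce
    split_ifs with h
    · exact hb.le (Submodule.subset_span ⟨_, rfl⟩)
    · exact W.zero_mem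
  · refine hb.ge.trans ?_
    rw [Submodule.span_le]
    rintro x ⟨i, rfl⟩
    refine Submodule.subset_span ⟨⟨i, lt_of_lt_of_le i.2 hk⟩, ?_⟩
    beta_reduce
    rw [dif_pos i.2]

variable [Fintype F]

/-- the elements of a span -/
noncomputable def spn {k : ℕ} (u : Fin k → E) : Finset E :=
  univ.image fun t : Fin k → F => ∑ j, t j • u j

theorem mem_spn {k : ℕ} (u : Fin k → E) (x : E) :
    x ∈ spn (F := F) u ↔ x ∈ Submodule.span F (Set.range u) := by
  unfold spn
  rw [mem_image, Submodule.mem_span_range_iff_exists_fun]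
  constructor
  · rintro ⟨t, _, h⟩
    exact ⟨t, h⟩
  · rintro ⟨t, h⟩
    exact ⟨t, mem_univ _, h⟩

theorem card_spn {k : ℕ} (u : Fin k → E) : (spn (F := F) u).card ≤ Fintype.card F ^ k := by
  refine card_image_le.trans (le_of_eq ?_)
  rw [card_univ, Fintype.card_fun, Fintype.card_fin]

end gens

section weights

variable {n : ℕ} {J : Type}

/-- the symmetric matrix with the given upper triangle -/
def sy (y : Fin n → Fin n → F2) (l l' : Fin n) : F2 :=
  if l < l' then y l l' else if l' < l then y l' l else 0

theorem sy_Sy (y : Fin n → Fin n → F2) : Sy (sy y) := by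
  intro l l'
  unfold sy
  rcases lt_trichotomy l l' with h | h | h
  · rw [if_pos h, if_neg (not_lt.2 h.le), if_pos h]
  · subst h
    rfl
  · rw [if_neg (not_lt.2 h.le), if_pos h, if_pos h]

theorem sy_add (y y' : Fin n → Fin n → F2) : sy (y + y') = sy y + sy y' := by
  funext l l'
  unfold sy
  simp only [Pi.add_apply]
  split_ifs <;> simp

theorem sy_smul (t : F2) (y : Fin n → Fin n → F2) : sy (t • y) = t • sy y := by
  funext l l'
  unfold sy
  simp only [Pi.smul_apply, smul_eq_mul]
  split_ifs <;> simp

theorem sy_zero : sy (0 : Fin n → Fin n → F2) = 0 := by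
  funext l l'
  unfold sy
  simp

/-- Abstract form of the use of `Gen`: a condition `Z` on the weights which is linear, depends only on the
entries off the diagonal and does not hold for all symmetric weights fails for many of the `x i`. -/
theorem gen_abs {Λ : Finset J} {x : J → Fin n → Fin n → F2} {m : ℕ} (hx : ∀ i, Sy (x i))
    (hG : Gen Λ x m) (Z : (Fin n → Fin n → F2) → Prop) (hZ0 : Z 0)
    (hZa : ∀ y y', Z y → Z y' → Z (y + y'))
    (hZd : ∀ y y' : Fin n → Fin n → F2, (∀ l l', l ≠ l' → y l l' = y' l l') → Z y → Z y')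
    (hne : ∃ y, Sy y ∧ ¬ Z y) : ∃ G ⊆ Λ, m ≤ G.card ∧ ∀ i ∈ G, ¬ Z (x i) := by
  have h01 : ∀ z : F2, z = 0 ∨ z = 1 := by decide
  have hsy : ∀ y : Fin n → Fin n → F2, Sy y → (Z (sy y) ↔ Z y) := by
    intro y hy
    have e1 : ∀ l l', l ≠ l' → sy y l l' = y l l' := by
      intro l l' hll
      unfold sy
      rcases lt_or_gt_of_ne hll with h | h
      · rw [if_pos h]
      · rw [if_neg (not_lt.2 h.le), if_pos h, hy l' l]
    exact ⟨hZd _ _ e1, hZd _ _ fun l l' h => (e1 l l' h).symm⟩
  obtain ⟨P, hP⟩ : ∃ P : Submodule F2 (Fin n → Fin n → F2), ∀ y, y ∈ P ↔ Z (sy y) := by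
    refine ⟨{ carrier := {y | Z (sy y)}, add_mem' := ?_, zero_mem' := ?_, smul_mem' := ?_ },
      fun y => Iff.rfl⟩
    · intro y y' hy hy'
      show Z (sy (y + y'))
      rw [sy_add]
      exact hZa _ _ hy hy'
    · show Z (sy 0)
      rw [sy_zero]
      exact hZ0
    · intro t y hy
      show Z (sy (t • y))
      rcases h01 t with h | h
      · rw [h, zero_smul, sy_zero]
        exact hZ0
      · rw [h, one_smul]
        exact hy
  have hlt : P < ⊤ := by
    rw [lt_top_iff_ne_top]
    intro h
    obtain ⟨y, hy, hy'⟩ := hne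
    have h1 : y ∈ P := by
      rw [h]
      exact Submodule.mem_top
    exact hy' ((hsy y hy).1 ((hP y).1 h1))
  obtain ⟨f, hf0, hf⟩ := Submodule.exists_le_ker_of_lt_top P hlt
  obtain ⟨φ, hφ⟩ : ∃ φ : Fin n → Fin n → F2, ∀ l l', φ l l' = f (Pi.single l (Pi.single l' 1)) :=
    ⟨fun l l' => f (Pi.single l (Pi.single l' 1)), fun _ _ => rfl⟩
  have hφ0 : ∀ l l', ¬ l < l' → φ l l' = 0 := by
    intro l l' h
    have h1 : (Pi.single l (Pi.single l' 1) : Fin n → Fin n → F2) ∈ P := by
      rw [hP]
      have h2 : sy (Pi.single l (Pi.single l' 1) : Fin n → Fin n → F2) = 0 := by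
        funext a b
        unfold sy
        have h3 : ∀ a b : Fin n, a < b →
            (Pi.single l (Pi.single l' 1) : Fin n → Fin n → F2) a b = 0 := by
          intro a b hab
          by_cases ha : a = l
          · subst ha
            rw [Pi.single_eq_same]
            have hb : b ≠ l' := by
              rintro rfl
              exact h hab
            rw [Pi.single_eq_of_ne hb]
          · rw [Pi.single_eq_of_ne ha]
            rfl
        split_ifs with h4 h5
        · exact h3 a b h4
        · exact h3 b a h5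
        · rfl
      rw [h2]
      exact hZ0
    rw [hφ]
    exact LinearMap.mem_ker.1 (hf h1)
  have hfe : ∀ y : Fin n → Fin n → F2, f y = pai φ y := by
    intro y
    have h1 : y = ∑ l, ∑ l', y l l' • (Pi.single l (Pi.single l' 1) : Fin n → Fin n → F2) := by
      funext a b
      rw [Finset.sum_apply, Finset.sum_apply, sum_eq_single a]
      · rw [Finset.sum_apply, Finset.sum_apply, sum_eq_single b]
        · simp
        · intro c _ hc
          simp [Pi.single_eq_of_ne (Ne.symm hc)]
        · intro h
          exact absurd (mem_univ _) h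
      · intro c _ hc
        rw [Finset.sum_apply, Finset.sum_apply]
        refine sum_eq_zero fun d _ => ?_
        rw [Pi.smul_apply, Pi.single_eq_of_ne (Ne.symm hc)]
        simp
      · intro h
        exact absurd (mem_univ _) h
    have h2 : f y = ∑ l, ∑ l', y l l' * φ l l' := by
      conv_lhs => rw [h1]
      rw [map_sum]
      refine sum_congr rfl fun l _ => ?_
      rw [map_sum]
      refine sum_congr rfl fun l' _ => ?_
      rw [map_smul, hφ, smul_eq_mul]
    rw [h2]
    unfold pai
    refine sum_congr rfl fun l _ => sum_congr rfl fun l' _ => ?_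
    by_cases h : l < l'
    · rw [if_pos h, mul_comm]
    · rw [if_neg h, hφ0 l l' h, mul_zero]
  have hex : ∃ l l', l < l' ∧ φ l l' ≠ 0 := by
    by_contra hcon
    push Not at hcon
    refine hf0 (LinearMap.ext fun y => ?_)
    rw [hfe, LinearMap.zero_apply]
    unfold pai
    refine sum_eq_zero fun l _ => sum_eq_zero fun l' _ => ?_
    by_cases h : l < l'
    · rw [if_pos h, hcon l l' h, zero_mul]
    · rw [if_neg h]
  refine ⟨_, filter_subset _ _, hG φ hex, fun i hi hZ => ?_⟩
  rw [mem_filter] at hi
  refine hi.2 ?_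
  rw [← hfe]
  refine LinearMap.mem_ker.1 (hf ?_)
  rw [hP, hsy _ (hx i)]
  exact hZ

/-- the laplacian depends only on the entries off the diagonal -/
theorem lap_congr {F : Type} [Field F] [Algebra F2 F] {y y' : Fin n → Fin n → F2}
    (h : ∀ l l', l ≠ l' → y l l' = y' l l') (w : Fin n → F) : lap y w = lap y' w := by
  funext l
  unfold lap
  refine sum_congr rfl fun l' _ => ?_
  by_cases hl : l = l'
  · subst hl
    rw [two_zero, mul_zero, mul_zero]
  · rw [h l l' hl]

theorem lap_add_w {F : Type} [Field F] [Algebra F2 F] (y y' : Fin n → Fin n → F2) (w : Fin n → F) :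
    lap (y + y') w = lap y w + lap y' w := by
  funext l
  unfold lap
  simp only [Pi.add_apply]
  rw [← sum_add_distrib]
  refine sum_congr rfl fun l' _ => ?_
  unfold cf
  rw [map_add]
  ring

theorem lap_zero_w {F : Type} [Field F] [Algebra F2 F] (w : Fin n → F) :
    lap (0 : Fin n → Fin n → F2) w = 0 := by
  funext l
  unfold lap
  refine sum_eq_zero fun l' _ => ?_
  show cf (0 : F2) * _ = _
  unfold cf
  rw [map_zero, zero_mul]

/-- `lap x` maps into `W0` for symmetric `x` -/
theorem lap_mem {F : Type} [Field F] [Algebra F2 F] {x : Fin n → Fin n → F2} (hx : Sy x)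
    (w : Fin n → F) : lap x w ∈ W0 n F := by
  show ∑ l, lap x w l = 0
  unfold lap
  simp only [mul_add, sum_add_distrib]
  have h1 : ∑ l, ∑ l', cf (x l l') * w l' = ∑ l : Fin n, ∑ l', (cf (x l l') : F) * w l := by
    rw [sum_comm]
    refine sum_congr rfl fun l _ => sum_congr rfl fun l' _ => ?_
    rw [hx l' l]
  rw [h1]
  exact two_zero _

end weights

end Pool.Agent.Q241.GJ
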