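import Pool.Agent.Q241.GJ.LAGa

/-!
# Project GJ (helper269), job LAG: the mean number of elements of the kernel for a matrix without symmetry
-/

set_option autoImplicit false
set_option linter.all false

open scoped Classical
open Finset

namespace Pool.Agent.Q241.GJ.LAG

open Pool.Agent.Q269.GR (F2 cf ts HU HG)
open Pool.Agent.Q241.GJ

section main

variable {F : Type} [Field F] [Fintype F] {E : Type} [AddCommGroup E] [Module F E] [Fintype E]
variable {J : Type} [Fintype J]

/-- the abstract theorem -/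
theorem abs_main (hF4 : 4 ≤ Fintype.card F) {m : ℕ} (hmE : Module.finrank F E = m) (hm1 : 1 ≤ m)
    (D : J → E →ₗ[F] E) (S : Finset J) (B : J → J → F)
    (inj1 : ∀ v : J → F, (∀ i, i ∉ S → v i = 0) → (∀ j, j ∉ S → ∑ i, v i * B i j = 0) → v = 0)
    (inj2 : ∀ v : J → F, (∀ i, i ∉ S → v i = 0) → (∀ j, j ∉ S → ∑ i, v i * B j i = 0) → v = 0)
    (hl : 4 * (m + 1) * S.card + 16 * (m + 1) ^ 2 + 64 ≤ Sᶜ.card)
    (hgen : ∀ L : Submodule F E, L ≠ ⊥ → L ≠ ⊤ →
      4 * (m + 1) * S.card + 16 * (m + 1) ^ 2 + 64 ≤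
        (Sᶜ.filter fun i => ¬ ∀ v ∈ L, D i v ∈ L).card) :
    ∑ w : J → E, (NN D S B w : ℝ) ≤
      17 / 8 * (((Fintype.card F ^ Fintype.card J) ^ Fintype.card J : ℕ) : ℝ) := by
  have hfin : Module.Finite F E := fin_inst
  obtain ⟨q, hq⟩ : ∃ q : ℕ, q = Fintype.card F := ⟨_, rfl⟩
  obtain ⟨l, hl'⟩ : ∃ l : ℕ, l = (Sᶜ : Finset J).card := ⟨_, rfl⟩
  obtain ⟨s, hs⟩ : ∃ s : ℕ, s = S.card := ⟨_, rfl⟩
  obtain ⟨NF, hNF⟩ : ∃ NF : ℕ, NF = (Fintype.card F ^ Fintype.card J) ^ Fintype.card J := ⟨_, rfl⟩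
  have hq4 : 4 ≤ q := by rw [hq]; exact hF4
  have hq0 : 0 < q := by omega
  have hqr : (0 : ℝ) < q := by exact_mod_cast hq0
  rw [← hNF]
  rw [← hs, ← hl'] at hl
  have hNF0 : (0 : ℝ) ≤ NF := Nat.cast_nonneg _
  obtain ⟨g, hg⟩ : ∃ g : (J → E) → ℝ, ∀ w, g w = (NN D S B w : ℝ) := ⟨_, fun _ => rfl⟩
  have hnn : ∀ w, 0 ≤ g w := fun w => by rw [hg]; exact Nat.cast_nonneg _
  obtain ⟨rho, hrho⟩ : ∃ rho : (J → E) → ℕ, ∀ w, rho w = Module.finrank F (SP F S w) :=
    ⟨_, fun _ => rfl⟩
  have hrho_le : ∀ w, rho w ≤ m := by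
    intro w
    rw [hrho, ← hmE]
    exact Submodule.finrank_le _
  -- the case of rank zero
  have hA : ∑ w ∈ univ.filter (fun w : J → E => NN D S B w ≠ 0 ∧ rho w = 0), g w ≤ NF := by
    have e1 : (univ.filter (fun w : J → E => NN D S B w ≠ 0 ∧ rho w = 0)) ⊆ {0} := by
      intro w hw
      rw [mem_filter] at hw
      obtain ⟨-, hw1, hw2⟩ := hw
      rw [mem_singleton]
      refine case_zero inj2 hw1 fun j hj => ?_
      rw [hrho] at hw2
      have h1 := Submodule.finrank_eq_zero.1 hw2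
      have h2 : w j ∈ SP F S w := mem_SP hj
      rw [h1, Submodule.mem_bot] at h2
      exact h2
    refine (sum_le_sum_of_subset_of_nonneg e1 fun w _ _ => hnn w).trans ?_
    rw [sum_singleton, hg, hNF]
    exact_mod_cast NN_zero D S B 0
  -- coloops
  have hB : ∀ r ∈ range m, ∑ w ∈ univ.filter (fun w : J → E => rho w = r + 1 ∧ col F S w ≠ ∅),
      g w ≤ NF / (16 * (m + 1)) := by
    intro r hr
    rw [mem_range] at hr
    have e1 : ∀ w ∈ univ.filter (fun w : J → E => rho w = r + 1 ∧ col F S w ≠ ∅),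
        g w ≤ NF * (q : ℝ) ^ m / (q : ℝ) ^ ((r + 1) * l) := by
      intro w hw
      rw [mem_filter] at hw
      obtain ⟨-, hw1, hw2⟩ := hw
      rw [hrho] at hw1
      have e2 := NN_one D S B w
      rw [hw1, hmE, ← hNF, ← hq, ← hl'] at e2
      rw [le_div_iff₀ (by positivity), hg]
      exact_mod_cast e2
    refine (sum_le_card_nsmul _ _ _ e1).trans ?_
    rw [nsmul_eq_mul]
    have e3 : (univ.filter (fun w : J → E => rho w = r + 1 ∧ col F S w ≠ ∅)).card ≤
        l * q ^ (m * r + (r * (l - 1) + m * (1 + s))) := by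
      have := count1 (F := F) (E := E) S r
      rw [hmE, ← hq, ← hl', ← hs] at this
      simp only [hrho]
      exact this
    obtain ⟨c, hc⟩ : ∃ c : ℕ, c =
      (univ.filter (fun w : J → E => rho w = r + 1 ∧ col F S w ≠ ∅)).card := ⟨_, rfl⟩
    rw [← hc] at e3 ⊢
    have e5 : 16 * (m + 1) * c * q ^ m ≤ q ^ ((r + 1) * l) := by
      have hl1 : 1 ≤ l := by
        have : 64 ≤ l := le_trans (by omega) hl
        omega
      obtain ⟨l1, hl1'⟩ : ∃ l1, l = l1 + 1 := ⟨l - 1, by omega⟩
      calc 16 * (m + 1) * c * q ^ m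
          ≤ 16 * (m + 1) * (l * q ^ (m * r + (r * (l - 1) + m * (1 + s)))) * q ^ m :=
            Nat.mul_le_mul_right _ (Nat.mul_le_mul_left _ e3)
        _ = 16 * (m + 1) * l * q ^ (m * r + (r * (l - 1) + m * (1 + s)) + m) := by
            rw [pow_add _ _ m]
            ring
        _ ≤ 16 * (m + 1) * l * q ^ ((m * m + m + m * s) + r * l) := by
            refine Nat.mul_le_mul_left _ (Nat.pow_le_pow_right hq0 ?_)
            rw [hl1']
            have e6 : l1 + 1 - 1 = l1 := by omega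
            rw [e6]
            obtain ⟨m1, hm1'⟩ : ∃ m1, m = m1 + 1 := ⟨m - 1, by omega⟩
            have e7 : r ≤ m1 := by omega
            rw [hm1']
            nlinarith [Nat.mul_le_mul e7 e7, Nat.mul_le_mul_left m1 e7]
        _ = (16 * (m + 1) * l * q ^ (m * m + m + m * s)) * q ^ (r * l) := by
            rw [pow_add]
            ring
        _ ≤ q ^ l * q ^ (r * l) := Nat.mul_le_mul_right _ (num1 hq4 hl)
        _ = q ^ ((r + 1) * l) := by
            rw [← pow_add]
            congr 1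
            ring
    have e6 : (16 * (m + 1) : ℝ) * c * (q : ℝ) ^ m ≤ (q : ℝ) ^ ((r + 1) * l) := by exact_mod_cast e5
    rw [mul_div_assoc', div_le_div_iff₀ (by positivity) (by positivity)]
    calc (c : ℝ) * (NF * (q : ℝ) ^ m) * (16 * (m + 1)) =
          NF * ((16 * (m + 1) : ℝ) * c * (q : ℝ) ^ m) := by ring
      _ ≤ NF * (q : ℝ) ^ ((r + 1) * l) := mul_le_mul_of_nonneg_left e6 hNF0
  -- proper subspaces
  have hC : ∀ r ∈ range m, ∑ w ∈ univ.filter (fun w : J → E => 1 ≤ r ∧ NN D S B w ≠ 0 ∧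
      rho w = r ∧ col F S w = ∅), g w ≤ NF / (16 * (m + 1)) := by
    intro r hr
    rw [mem_range] at hr
    by_cases hr1 : 1 ≤ r
    · have e1 : ∀ w ∈ univ.filter (fun w : J → E => 1 ≤ r ∧ NN D S B w ≠ 0 ∧
          rho w = r ∧ col F S w = ∅), g w ≤ NF / (q : ℝ) ^ (r * l) := by
        intro w hw
        rw [mem_filter] at hw
        obtain ⟨-, -, -, hw1, hw2⟩ := hw
        rw [hrho] at hw1
        have e2 := NN_two D S B hw2
        rw [hw1, ← hNF, ← hq, ← hl'] at e2
        rw [le_div_iff₀ (by positivity), hg]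
        exact_mod_cast e2
      refine (sum_le_card_nsmul _ _ _ e1).trans ?_
      rw [nsmul_eq_mul]
      have e3 : (univ.filter (fun w : J → E => 1 ≤ r ∧ NN D S B w ≠ 0 ∧
          rho w = r ∧ col F S w = ∅)).card * q ^ (4 * (m + 1) * s + 16 * (m + 1) ^ 2 + 64) ≤
          q ^ (m * r + (m * s + r * l)) := by
        have := count2 D S B hr1 (by rw [hmE]; exact hr) hgen
        rw [hmE, ← hq, ← hl', ← hs] at this
        refine (Nat.mul_le_mul_right _ (card_le_card fun w hw => ?_)).trans this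
        rw [mem_filter] at hw ⊢
        rw [hrho] at hw
        exact ⟨hw.1, hw.2.2.1, hw.2.2.2.1⟩
      obtain ⟨c, hc⟩ : ∃ c : ℕ, c = (univ.filter (fun w : J → E => 1 ≤ r ∧ NN D S B w ≠ 0 ∧
          rho w = r ∧ col F S w = ∅)).card := ⟨_, rfl⟩
      rw [← hc] at e3 ⊢
      have e5 : 16 * (m + 1) * c ≤ q ^ (r * l) := by
        have f1 : 16 * (m + 1) * c * q ^ (4 * (m + 1) * s + 16 * (m + 1) ^ 2 + 64) ≤
            q ^ (r * l) * q ^ (4 * (m + 1) * s + 16 * (m + 1) ^ 2 + 64) := by
          calc 16 * (m + 1) * c * q ^ (4 * (m + 1) * s + 16 * (m + 1) ^ 2 + 64)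
              = 16 * (m + 1) * (c * q ^ (4 * (m + 1) * s + 16 * (m + 1) ^ 2 + 64)) := by ring
            _ ≤ 16 * (m + 1) * q ^ (m * r + (m * s + r * l)) := Nat.mul_le_mul_left _ e3
            _ ≤ 16 * (m + 1) * q ^ ((m * m + m * s) + r * l) := by
                refine Nat.mul_le_mul_left _ (Nat.pow_le_pow_right hq0 ?_)
                have : m * r ≤ m * m := Nat.mul_le_mul_left _ hr.le
                omega
            _ = (16 * (m + 1) * q ^ (m * m + m * s)) * q ^ (r * l) := by
                rw [pow_add]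
                ring
            _ ≤ q ^ (4 * (m + 1) * s + 16 * (m + 1) ^ 2 + 64) * q ^ (r * l) :=
                Nat.mul_le_mul_right _ (num2 hq4)
            _ = _ := mul_comm _ _
        exact Nat.le_of_mul_le_mul_right f1 (by positivity)
      have e6 : (16 * (m + 1) : ℝ) * c ≤ (q : ℝ) ^ (r * l) := by exact_mod_cast e5
      rw [mul_div_assoc', div_le_div_iff₀ (by positivity) (by positivity)]
      calc (c : ℝ) * NF * (16 * (m + 1)) = NF * ((16 * (m + 1) : ℝ) * c) := by ring
        _ ≤ NF * (q : ℝ) ^ (r * l) := mul_le_mul_of_nonneg_left e6 hNF0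
    · rw [filter_false_of_mem (fun w _ h => hr1 h.1), sum_empty]
      positivity
  -- full rank
  have hD : ∑ w ∈ univ.filter (fun w : J → E => NN D S B w ≠ 0 ∧ rho w = m ∧ col F S w = ∅),
      g w ≤ NF := by
    have e1 : ∀ w ∈ univ.filter (fun w : J → E => NN D S B w ≠ 0 ∧ rho w = m ∧ col F S w = ∅),
        g w ≤ NF / (q : ℝ) ^ (m * l) := by
      intro w hw
      rw [mem_filter] at hw
      obtain ⟨-, -, hw1, hw2⟩ := hw
      rw [hrho] at hw1
      have e2 := NN_two D S B hw2
      rw [hw1, ← hNF, ← hq, ← hl'] at e2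
      rw [le_div_iff₀ (by positivity), hg]
      exact_mod_cast e2
    refine (sum_le_card_nsmul _ _ _ e1).trans ?_
    rw [nsmul_eq_mul]
    have e3 : (univ.filter (fun w : J → E => NN D S B w ≠ 0 ∧ rho w = m ∧ col F S w = ∅)).card ≤
        q ^ (m * l) := by
      have := countA D S B inj1
      rw [hmE, ← hq, ← hl'] at this
      refine (card_le_card fun w hw => ?_).trans this
      rw [mem_filter] at hw ⊢
      exact ⟨hw.1, hw.2.1⟩
    have e4 : (((univ.filter (fun w : J → E => NN D S B w ≠ 0 ∧ rho w = m ∧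
        col F S w = ∅)).card : ℕ) : ℝ) ≤ (q : ℝ) ^ (m * l) := by
      exact_mod_cast e3
    calc _ ≤ (q : ℝ) ^ (m * l) * (NF / (q : ℝ) ^ (m * l)) :=
          mul_le_mul_of_nonneg_right e4 (by positivity)
      _ = NF := by field_simp
  -- together
  have hall : ∑ w : J → E, g w ≤
      ∑ w ∈ univ.filter (fun w : J → E => NN D S B w ≠ 0 ∧ rho w = 0), g w +
      ∑ r ∈ range m, ∑ w ∈ univ.filter (fun w : J → E => rho w = r + 1 ∧ col F S w ≠ ∅), g w +
      ∑ r ∈ range m, ∑ w ∈ univ.filter (fun w : J → E => 1 ≤ r ∧ NN D S B w ≠ 0 ∧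
        rho w = r ∧ col F S w = ∅), g w +
      ∑ w ∈ univ.filter (fun w : J → E => NN D S B w ≠ 0 ∧ rho w = m ∧ col F S w = ∅), g w := by
    simp only [sum_filter]
    rw [sum_comm (s := range m), sum_comm (s := range m), ← sum_add_distrib, ← sum_add_distrib,
      ← sum_add_distrib]
    refine sum_le_sum fun w _ => ?_
    have hw := hnn w
    have p1 : 0 ≤ (if NN D S B w ≠ 0 ∧ rho w = 0 then g w else 0) := by
      split_ifs <;> simp [hw]
    have p2 : 0 ≤ ∑ r ∈ range m, (if rho w = r + 1 ∧ col F S w ≠ ∅ then g w else 0) :=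
      sum_nonneg fun r _ => by split_ifs <;> simp [hw]
    have p3 : 0 ≤ ∑ r ∈ range m, (if 1 ≤ r ∧ NN D S B w ≠ 0 ∧ rho w = r ∧ col F S w = ∅
        then g w else 0) := sum_nonneg fun r _ => by split_ifs <;> simp [hw]
    have p4 : 0 ≤ (if NN D S B w ≠ 0 ∧ rho w = m ∧ col F S w = ∅ then g w else 0) := by
      split_ifs <;> simp [hw]
    by_cases h0 : NN D S B w = 0
    · have : g w = 0 := by
        rw [hg]
        exact_mod_cast h0
      linarith
    by_cases h1 : rho w = 0
    · rw [if_pos (⟨h0, h1⟩ : NN D S B w ≠ 0 ∧ rho w = 0)]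
      linarith
    by_cases h2 : col F S w = ∅
    · by_cases h3 : rho w = m
      · rw [if_pos (⟨h0, h3, h2⟩ : NN D S B w ≠ 0 ∧ rho w = m ∧ col F S w = ∅)]
        linarith
      · have h4 := hrho_le w
        have p5 : g w ≤ ∑ r ∈ range m, (if 1 ≤ r ∧ NN D S B w ≠ 0 ∧ rho w = r ∧ col F S w = ∅
            then g w else 0) := by
          refine le_trans (le_of_eq ?_) (single_le_sum (f := fun r => if 1 ≤ r ∧ NN D S B w ≠ 0 ∧
            rho w = r ∧ col F S w = ∅ then g w else 0) (fun r _ => by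
              beta_reduce
              split_ifs <;> simp [hw]) (mem_range.2 (by omega : rho w < m)))
          rw [if_pos ⟨by omega, h0, rfl, h2⟩]
        linarith
    · have h4 := hrho_le w
      have p5 : g w ≤ ∑ r ∈ range m, (if rho w = r + 1 ∧ col F S w ≠ ∅ then g w else 0) := by
        refine le_trans (le_of_eq ?_) (single_le_sum (f := fun r => if rho w = r + 1 ∧
          col F S w ≠ ∅ then g w else 0) (fun r _ => by
            beta_reduce
            split_ifs <;> simp [hw]) (mem_range.2 (by omega : rho w - 1 < m)))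
        rw [if_pos ⟨by omega, h2⟩]
      linarith
  have hB' := sum_le_sum hB
  have hC' := sum_le_sum hC
  rw [sum_const, card_range, nsmul_eq_mul] at hB' hC'
  have hbd : (m : ℝ) * (NF / (16 * (m + 1))) ≤ 1 / 16 * NF := by
    rw [mul_div_assoc', div_le_iff₀ (by positivity)]
    have : (0 : ℝ) ≤ m := Nat.cast_nonneg _
    nlinarith
  simp only [hg] at hall hA hB' hC' hD
  linarith

end main

section apply

open Pool.Agent.Q269.GJ

variable {F : Type} [Field F] [Fintype F] [Algebra F2 F] {n : ℕ}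

/-- the laplacian on `W0` -/
noncomputable def lapL {x : Fin n → Fin n → F2} (hx : Sy x) : W0 n F →ₗ[F] W0 n F where
  toFun w := ⟨lap x w.1, lap_mem hx w.1⟩
  map_add' v w := Subtype.ext (by
    show lap x (v + w).1 = lap x v.1 + lap x w.1
    rw [Submodule.coe_add, lap_add])
  map_smul' t w := Subtype.ext (by
    show lap x (t • w).1 = t • lap x w.1
    rw [Submodule.coe_smul, lap_smul])

/-- the indicator of a pair -/
def Eab (a b : Fin n) (l l' : Fin n) : F2 := if (l = a ∧ l' = b) ∨ (l = b ∧ l' = a) then 1 else 0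

theorem Eab_Sy (a b : Fin n) : Sy (Eab a b) := by
  intro l l'
  unfold Eab
  congr 1
  apply propext
  tauto

theorem lap_Eab {a b : Fin n} (hab : a ≠ b) (w : Fin n → F) :
    lap (Eab a b) w = (w a + w b) • (eab (F := F) a b).1 := by
  funext l
  show ∑ l', cf (Eab a b l l') * (w l + w l') =
    (w a + w b) * ((Pi.single a (1 : F) : Fin n → F) l + (Pi.single b (1 : F) : Fin n → F) l)
  have c1 : (cf (1 : F2) : F) = 1 := map_one _
  have c0 : (cf (0 : F2) : F) = 0 := map_zero _
  by_cases h1 : l = a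
  · subst h1
    rw [sum_eq_single b]
    · rw [Pi.single_eq_same, Pi.single_eq_of_ne hab]
      unfold Eab
      rw [if_pos (Or.inl ⟨rfl, rfl⟩), c1]
      ring
    · intro c _ hc
      unfold Eab
      rw [if_neg (by tauto), c0, zero_mul]
    · intro h
      exact absurd (mem_univ _) h
  · by_cases h2 : l = b
    · subst h2
      rw [sum_eq_single a]
      · rw [Pi.single_eq_same, Pi.single_eq_of_ne (Ne.symm hab)]
        unfold Eab
        rw [if_pos (Or.inr ⟨rfl, rfl⟩), c1]
        ring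
      · intro c _ hc
        unfold Eab
        rw [if_neg (by tauto), c0, zero_mul]
      · intro h
        exact absurd (mem_univ _) h
    · rw [Pi.single_eq_of_ne h1, Pi.single_eq_of_ne h2, add_zero, mul_zero]
      refine sum_eq_zero fun c _ => ?_
      unfold Eab
      rw [if_neg (by tauto), c0, zero_mul]

/-- a nonzero subspace which is stable under all laplacians is everything -/
theorem stable_top (hn : Odd n) {L : Submodule F (W0 n F)} (hL : L ≠ ⊥)
    (h : ∀ y : Fin n → Fin n → F2, ∀ hy : Sy y, ∀ v ∈ L, lapL hy v ∈ L) : L = ⊤ := by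
  obtain ⟨w, hw, hw0⟩ := (Submodule.ne_bot_iff L).1 hL
  obtain ⟨a, b, hab⟩ : ∃ a b, w.1 a ≠ w.1 b := by
    by_contra hcon
    push Not at hcon
    exact hw0 (const_W0 hn hcon)
  have hne : a ≠ b := fun h => hab (by rw [h])
  have key : ∀ (c d : Fin n), c ≠ d → ∀ v ∈ L, v.1 c ≠ v.1 d → eab (F := F) c d ∈ L := by
    intro c d hcd v hv hvv
    have h1 := h (Eab c d) (Eab_Sy c d) v hv
    have h2 : lapL (Eab_Sy c d) v = (v.1 c + v.1 d) • eab (F := F) c d := Subtype.ext (lap_Eab hcd v.1)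
    rw [h2] at h1
    exact (Submodule.smul_mem_iff L (fun h3 => hvv (eq_of_add_zero h3))).1 h1
  have h1 : eab (F := F) a b ∈ L := key a b hne w hw hab
  have h2 : ∀ c, eab (F := F) b c ∈ L := by
    intro c
    by_cases hc1 : c = b
    · have : eab (F := F) b c = 0 := by
        refine Subtype.ext ?_
        show (Pi.single b (1 : F) + Pi.single c (1 : F) : Fin n → F) = 0
        rw [hc1]
        funext l
        exact two_zero _
      rw [this]
      exact L.zero_mem
    · by_cases hc2 : c = a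
      · have : eab (F := F) b c = eab a b := by
          refine Subtype.ext ?_
          show (Pi.single b (1 : F) + Pi.single c (1 : F) : Fin n → F) =
            Pi.single a (1 : F) + Pi.single b (1 : F)
          rw [hc2, add_comm]
        rw [this]
        exact h1
      · refine key b c (Ne.symm hc1) _ h1 ?_
        show (Pi.single a (1 : F) + Pi.single b (1 : F) : Fin n → F) b ≠
          (Pi.single a (1 : F) + Pi.single b (1 : F) : Fin n → F) c
        rw [Pi.add_apply, Pi.add_apply, Pi.single_eq_of_ne (Ne.symm hne), Pi.single_eq_same,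
          Pi.single_eq_of_ne hc2, Pi.single_eq_of_ne hc1]
        simp
  rw [eq_top_iff]
  intro v _
  have h3 : v = ∑ c, v.1 c • eab (F := F) b c := by
    refine Subtype.ext ?_
    rw [Submodule.coe_sum]
    funext l
    rw [Finset.sum_apply]
    show v.1 l = ∑ c, v.1 c * ((Pi.single b (1 : F) : Fin n → F) l + (Pi.single c (1 : F) : Fin n → F) l)
    simp only [mul_add, sum_add_distrib]
    rw [← sum_mul, W0_sum v, zero_mul, zero_add, sum_eq_single l]
    · rw [Pi.single_eq_same, mul_one]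
    · intro c _ hc
      rw [Pi.single_eq_of_ne (Ne.symm hc), mul_zero]
    · intro h
      exact absurd (mem_univ _) h
  rw [h3]
  exact Submodule.sum_mem _ fun c _ => L.smul_mem _ (h2 c)

end apply

end Pool.Agent.Q241.GJ.LAG

namespace Pool.Agent.Q241.GJ

open Pool.Agent.Q269.GR (F2 cf ts HU HG)
open Pool.Agent.Q269.GJ
open Pool.Agent.Q241.GJ.LAG (lapL abs_main Er NN sum_eq stable_top)

theorem t_LAG : S_LAG := by
  intro F _ _ _ hF4 n hn hn3 J _ S B dd x hx inj1 inj2 hG
  have hn1 : 1 ≤ n := by omega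
  obtain ⟨D, hD⟩ : ∃ D : J → W0 n F →ₗ[F] W0 n F, ∀ i v, D i v = dd i • v + lapL (hx i) v :=
    ⟨fun i => dd i • LinearMap.id + lapL (hx i), fun i v => rfl⟩
  have hmem : ∀ (s : J → J → F) (w : J → W0 n F),
      w ∈ Kn (HG S B s) dd x ↔ ∀ i, Er D (HG S B s) w i = 0 := by
    intro s w
    rw [mem_Kn]
    refine forall_congr' fun i => ?_
    have h1 : (Er D (HG S B s) w i).1 = eqn (HG S B s) dd x w i := by
      unfold Er eqn
      rw [hD, Submodule.coe_add, Submodule.coe_sum, Submodule.coe_add, add_assoc]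
      rfl
    rw [← h1]
    constructor
    · intro h
      exact Subtype.ext h
    · intro h
      rw [h]
      rfl
  have hcard : ∀ s : J → J → F, (Nat.card (Kn (HG S B s) dd x) : ℝ) =
      (Nat.card {w : J → W0 n F // ∀ i, Er D (HG S B s) w i = 0} : ℝ) := by
    intro s
    congr 1
    exact Nat.card_congr (Equiv.subtypeEquivRight (hmem s))
  simp only [hcard]
  rw [sum_eq D S B]
  have hCG : CG n S.card = 4 * (n - 1 + 1) * S.card + 16 * (n - 1 + 1) ^ 2 + 64 := by
    unfold CG
    have : n - 1 + 1 = n := by omega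
    rw [this]
  rw [hCG] at hG
  have hl : 4 * (n - 1 + 1) * S.card + 16 * (n - 1 + 1) ^ 2 + 64 ≤ Sᶜ.card := by
    have := hG (fun _ _ => 1) ⟨⟨0, by omega⟩, ⟨1, by omega⟩, by
      rw [Fin.lt_def]
      norm_num, by decide⟩
    exact this.trans (card_filter_le _ _)
  have hmain := abs_main hF4 (finrank_W0 (F := F) hn1) (by omega) D S B inj1 inj2 hl (by
    intro L hL0 hL1
    obtain ⟨L1, hL1'⟩ : ∃ L1 : Submodule F (Fin n → F), L1 = L.map (W0 n F).subtype := ⟨_, rfl⟩
    have hLm : ∀ v : W0 n F, v.1 ∈ L1 ↔ v ∈ L := by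
      intro v
      rw [hL1']
      constructor
      · rintro ⟨u, hu, hu'⟩
        have : u = v := Subtype.ext hu'
        rwa [← this]
      · intro h
        exact ⟨v, h, rfl⟩
    have c1 : ∀ y y' : Fin n → Fin n → F2, (∀ v ∈ L, lap y v.1 ∈ L1) →
        (∀ v ∈ L, lap y' v.1 ∈ L1) → ∀ v ∈ L, lap (y + y') v.1 ∈ L1 := by
      intro y y' h h' v hv
      rw [lap_add_w]
      exact L1.add_mem (h v hv) (h' v hv)
    have c2 : ∀ y y' : Fin n → Fin n → F2, (∀ l l', l ≠ l' → y l l' = y' l l') →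
        (∀ v ∈ L, lap y v.1 ∈ L1) → ∀ v ∈ L, lap y' v.1 ∈ L1 := by
      intro y y' h h' v hv
      rw [← lap_congr h v.1]
      exact h' v hv
    have c3 : ∃ y : Fin n → Fin n → F2, Sy y ∧ ¬ ∀ v ∈ L, lap y v.1 ∈ L1 := by
      by_contra hcon
      push Not at hcon
      refine hL1 (stable_top hn hL0 fun y hy v hv => ?_)
      rw [← hLm]
      exact hcon y hy v hv
    have c0 : ∀ v ∈ L, lap (0 : Fin n → Fin n → F2) v.1 ∈ L1 := by
      intro v _
      rw [lap_zero_w]
      exact L1.zero_mem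
    obtain ⟨G, hG1, hG2, hG3⟩ := gen_abs hx hG (fun y => ∀ v ∈ L, lap y v.1 ∈ L1) c0 c1 c2 c3
    refine hG2.trans (card_le_card fun i hi => ?_)
    rw [mem_filter]
    refine ⟨hG1 hi, fun h => hG3 i hi fun v hv => ?_⟩
    have h1 := h v hv
    rw [hD] at h1
    have h2 := (Submodule.add_mem_iff_right L (L.smul_mem (dd i) hv)).1 h1
    rw [← hLm] at h2
    exact h2)
  refine hmain.trans (le_of_eq ?_)
  rw [Fintype.card_fun, Fintype.card_fun]

end Pool.Agent.Q241.GJ
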