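import Pool.Agent.Q241.GJ.Base
import Pool.Agent.Q24.GR.LAG

/-!
# Project GJ (helper269), job LAG, abstract part: random matrices without symmetry over a finite field, acting on
families of vectors of a space `E`, with fixed linear maps on the diagonal.
-/

set_option autoImplicit false
set_option linter.all false

open scoped Classical
open Finset

namespace Pool.Agent.Q241.GJ.LAG

open Pool.Agent.Q269.GR (F2 cf ts HU HG)
open Pool.Agent.Q24.GR.LAG (fib_le)
open Pool.Agent.Q241.GJ (card_mod exists_gens spn mem_spn card_spn)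

section abs

variable {F : Type} [Field F] [Fintype F] {E : Type} [AddCommGroup E] [Module F E] [Fintype E]
variable {J : Type} [Fintype J]

theorem fin_inst : Module.Finite F E := Module.Finite.of_finite

/-- a row of the system -/
noncomputable def Er (D : J → E →ₗ[F] E) (M : J → J → F) (w : J → E) (i : J) : E :=
  ∑ j, (if j = i then (0 : F) else M i j) • w j + D i (w i)

/-- the random part of a row -/
noncomputable def rowL (S : Finset J) (w : J → E) (i : J) : (J → F) →ₗ[F] E :=
  ∑ j, if j = i ∨ j ∈ S then 0 else (LinearMap.proj j : (J → F) →ₗ[F] F).smulRight (w j)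

theorem rowL_apply (S : Finset J) (w : J → E) (i : J) (r : J → F) :
    rowL S w i r = ∑ j, if j = i ∨ j ∈ S then 0 else r j • w j := by
  unfold rowL
  rw [LinearMap.sum_apply]
  refine sum_congr rfl fun j _ => ?_
  split_ifs
  · rfl
  · rfl

theorem rowL_mem (S : Finset J) (w : J → E) {i j : J} (hji : j ≠ i) (hj : j ∉ S) :
    w j ∈ LinearMap.range (rowL (F := F) S w i) := by
  refine ⟨Pi.single j 1, ?_⟩
  rw [rowL_apply, sum_eq_single j]
  · rw [if_neg (by tauto), Pi.single_eq_same, one_smul]
  · intro l _ hl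
    split_ifs
    · rfl
    · rw [Pi.single_eq_of_ne hl, zero_smul]
  · intro h
    exact absurd (mem_univ _) h

/-- the fixed part of a row -/
noncomputable def rhs (D : J → E →ₗ[F] E) (S : Finset J) (B : J → J → F) (w : J → E) (i : J) : E :=
  ∑ j ∈ S, B i j • w j + D i (w i)

theorem eqn_row (D : J → E →ₗ[F] E) (S : Finset J) (B : J → J → F) (w : J → E)
    {i : J} (hi : i ∉ S) (s : J → J → F) :
    Er D (HG S B s) w i = rowL S w i (s i) + rhs D S B w i := by
  unfold Er rhs
  rw [rowL_apply, ← add_assoc]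
  congr 1
  have h1 : ∑ j ∈ S, B i j • w j = ∑ j, if j ∈ S then B i j • w j else 0 := by
    rw [sum_ite_mem, univ_inter]
  rw [h1, ← sum_add_distrib]
  refine sum_congr rfl fun j _ => ?_
  unfold HG
  by_cases h1 : j = i
  · subst h1
    simp [hi]
  · by_cases h2 : j ∈ S
    · simp [h1, h2, hi]
    · simp [h1, h2, hi]

/-- the good rows -/
noncomputable def TT (D : J → E →ₗ[F] E) (S : Finset J) (B : J → J → F) (w : J → E)
    (i : J) : Finset (J → F) := univ.filter fun r => Er D (HG S B fun _ => r) w i = 0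

theorem mem_iff (D : J → E →ₗ[F] E) (S : Finset J) (B : J → J → F) (w : J → E)
    (s : J → J → F) : (∀ i, Er D (HG S B s) w i = 0) ↔ s ∈ Fintype.piFinset (TT D S B w) := by
  rw [Fintype.mem_piFinset]
  refine forall_congr' fun i => ?_
  unfold TT
  rw [mem_filter]
  constructor
  · intro h
    exact ⟨mem_univ _, h⟩
  · intro h
    exact h.2

/-- the number of the matrices with a given solution -/
noncomputable def NN (D : J → E →ₗ[F] E) (S : Finset J) (B : J → J → F) (w : J → E) : ℕ :=
  ∏ i, (TT D S B w i).card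

theorem sum_eq (D : J → E →ₗ[F] E) (S : Finset J) (B : J → J → F) :
    ∑ s : J → J → F, (Nat.card {w : J → E // ∀ i, Er D (HG S B s) w i = 0} : ℝ) =
      ∑ w : J → E, (NN D S B w : ℝ) := by
  have h1 : ∀ s : J → J → F,
      (Nat.card {w : J → E // ∀ i, Er D (HG S B s) w i = 0} : ℝ) =
      ∑ w : J → E, if (∀ i, Er D (HG S B s) w i = 0) then (1 : ℝ) else 0 := by
    intro s
    rw [Nat.card_eq_fintype_card, Fintype.card_subtype, sum_boole]
  simp only [h1]
  rw [sum_comm]
  refine sum_congr rfl fun w _ => ?_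
  unfold NN
  rw [← Fintype.card_piFinset]
  simp only [mem_iff]
  rw [sum_boole]
  congr 2
  ext s
  simp

/-- the span of the random vectors -/
def SP (F : Type) [Field F] {E : Type} [AddCommGroup E] [Module F E] {J : Type}
    (S : Finset J) (w : J → E) : Submodule F E := Submodule.span F (w '' {j | j ∉ S})

/-- the span of the random vectors but one -/
def SQ (F : Type) [Field F] {E : Type} [AddCommGroup E] [Module F E] {J : Type}
    (S : Finset J) (w : J → E) (i : J) : Submodule F E :=
  Submodule.span F (w '' {j | j ∉ S ∧ j ≠ i})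

theorem mem_SP {S : Finset J} {w : J → E} {j : J} (hj : j ∉ S) : w j ∈ SP F S w :=
  Submodule.subset_span ⟨j, hj, rfl⟩

theorem mem_SQ {S : Finset J} {w : J → E} {i j : J} (hj : j ∉ S) (hji : j ≠ i) :
    w j ∈ SQ F S w i := Submodule.subset_span ⟨j, ⟨hj, hji⟩, rfl⟩

theorem SQ_le (S : Finset J) (w : J → E) (i : J) : SQ F S w i ≤ SP F S w := by
  refine Submodule.span_mono ?_
  rintro x ⟨j, hj, rfl⟩
  exact ⟨j, hj.1, rfl⟩

theorem SP_le_of {S : Finset J} {w : J → E} {L : Submodule F E} (h : ∀ j, j ∉ S → w j ∈ L) :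
    SP F S w ≤ L := by
  unfold SP
  rw [Submodule.span_le]
  rintro x ⟨j, hj, rfl⟩
  exact h j hj

theorem SQ_eq {S : Finset J} {w : J → E} {i : J} (h : w i ∈ SQ F S w i) :
    SQ F S w i = SP F S w := by
  refine le_antisymm (SQ_le S w i) (SP_le_of fun j hj => ?_)
  by_cases hji : j = i
  · rw [hji]
    exact h
  · exact mem_SQ hj hji

theorem SQ_ge (S : Finset J) (w : J → E) (i : J) :
    Module.finrank F (SP F S w) ≤ Module.finrank F (SQ F S w i) + 1 := by
  have hfin : Module.Finite F E := fin_inst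
  have h1 : SP F S w ≤ SQ F S w i ⊔ Submodule.span F {w i} := by
    refine SP_le_of fun j hj => ?_
    by_cases hji : j = i
    · rw [hji]
      exact Submodule.mem_sup_right (Submodule.mem_span_singleton_self _)
    · exact Submodule.mem_sup_left (mem_SQ hj hji)
  have h2 := Submodule.finrank_mono h1
  have h3 := Submodule.finrank_add_le_finrank_add_finrank (SQ F S w i) (Submodule.span F {w i})
  have h4 : Module.finrank F (Submodule.span F {w i}) ≤ 1 := by
    have := finrank_span_le_card (R := F) ({w i} : Set E)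
    simpa using this
  omega

theorem TT_le (D : J → E →ₗ[F] E) (S : Finset J) (B : J → J → F) {w : J → E} {i : J} (hi : i ∉ S) :
    (TT D S B w i).card * Fintype.card F ^ Module.finrank F (SQ F S w i) ≤
      Fintype.card F ^ Fintype.card J := by
  have hfin : Module.Finite F E := fin_inst
  have h0 : SQ F S w i ≤ LinearMap.range (rowL (F := F) S w i) := by
    unfold SQ
    rw [Submodule.span_le]
    rintro x ⟨j, hj, rfl⟩
    exact rowL_mem S w hj.2 hj.1
  have h1 : Fintype.card F ^ Module.finrank F (SQ F S w i) ≤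
      Nat.card (LinearMap.range (rowL (F := F) S w i)) := by
    rw [card_mod (F := F) (LinearMap.range (rowL (F := F) S w i))]
    exact Nat.pow_le_pow_right Fintype.card_pos (Submodule.finrank_mono h0)
  refine le_trans (Nat.mul_le_mul ?_ h1) ((fib_le (rowL (F := F) S w i)
    (-rhs D S B w i)).trans (le_of_eq ?_))
  · refine card_le_card fun r hr => ?_
    unfold TT at hr
    simp only [mem_filter] at hr ⊢
    refine ⟨mem_univ _, ?_⟩
    have h2 := eqn_row D S B w hi (fun _ => r)
    rw [hr.2] at h2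
    exact eq_neg_of_add_eq_zero_left h2.symm
  · rw [Fintype.card_fun]

theorem TT_le' (D : J → E →ₗ[F] E) (S : Finset J) (B : J → J → F) (w : J → E) (i : J) :
    (TT D S B w i).card ≤ Fintype.card F ^ Fintype.card J := by
  refine (card_le_univ _).trans (le_of_eq ?_)
  rw [Fintype.card_fun]

/-- the coloops -/
noncomputable def col (F : Type) [Field F] {E : Type} [AddCommGroup E] [Module F E] {J : Type}
    [Fintype J] (S : Finset J) (w : J → E) : Finset J := Sᶜ.filter fun i => w i ∉ SQ F S w i

theorem card_col (S : Finset J) (w : J → E) :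
    (col F S w).card ≤ Module.finrank F E := by
  have hfin : Module.Finite F E := fin_inst
  have h1 : LinearIndepOn F w (col F S w : Set J) := by
    rw [linearIndepOn_iff_notMem_span]
    intro i hi h
    have hi' : i ∈ col F S w := hi
    unfold col at hi'
    rw [mem_filter] at hi'
    refine hi'.2 ?_
    refine Submodule.span_mono ?_ h
    rintro x ⟨j, ⟨hj1, hj2⟩, rfl⟩
    have hj1' : j ∈ col F S w := hj1
    unfold col at hj1'
    rw [mem_filter, mem_compl] at hj1'
    exact ⟨j, ⟨hj1'.1, hj2⟩, rfl⟩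
  have h2 : LinearIndependent F (fun i : (col F S w : Finset J) => w i) := h1
  have h3 := h2.fintype_card_le_finrank
  rwa [Fintype.card_coe] at h3

theorem NN_gen (D : J → E →ₗ[F] E) (S : Finset J) (B : J → J → F) (w : J → E) :
    NN D S B w * Fintype.card F ^ (∑ i ∈ Sᶜ, Module.finrank F (SQ F S w i)) ≤
      (Fintype.card F ^ Fintype.card J) ^ Fintype.card J := by
  have h1 : Fintype.card F ^ (∑ i ∈ Sᶜ, Module.finrank F (SQ F S w i)) =
      ∏ i : J, if i ∈ Sᶜ then Fintype.card F ^ Module.finrank F (SQ F S w i) else 1 := by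
    rw [prod_ite_mem, univ_inter, prod_pow_eq_pow_sum]
  have h2 : (Fintype.card F ^ Fintype.card J) ^ Fintype.card J =
      ∏ _i : J, Fintype.card F ^ Fintype.card J := by
    rw [prod_const, card_univ]
  unfold NN
  rw [h1, h2, ← prod_mul_distrib]
  refine Finset.prod_le_prod (fun i _ => Nat.zero_le _) fun i _ => ?_
  by_cases hi : i ∈ Sᶜ
  · rw [if_pos hi]
    exact TT_le D S B (mem_compl.1 hi)
  · rw [if_neg hi, mul_one]
    exact TT_le' D S B w i

/-- the general bound -/
theorem NN_one (D : J → E →ₗ[F] E) (S : Finset J) (B : J → J → F) (w : J → E) :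
    NN D S B w * Fintype.card F ^ (Module.finrank F (SP F S w) * Sᶜ.card) ≤
      (Fintype.card F ^ Fintype.card J) ^ Fintype.card J *
        Fintype.card F ^ Module.finrank F E := by
  have h1 := NN_gen D S B w
  have h2 : Module.finrank F (SP F S w) * Sᶜ.card ≤
      (∑ i ∈ Sᶜ, Module.finrank F (SQ F S w i)) + Module.finrank F E := by
    have h3 : ∑ i ∈ Sᶜ, Module.finrank F (SP F S w) ≤
        ∑ i ∈ Sᶜ, (Module.finrank F (SQ F S w i) + if w i ∉ SQ F S w i then 1 else 0) := by
      refine sum_le_sum fun i hi => ?_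
      by_cases h : w i ∉ SQ F S w i
      · rw [if_pos h]
        exact SQ_ge S w i
      · rw [if_neg h]
        push Not at h
        rw [SQ_eq h, add_zero]
    rw [sum_const, smul_eq_mul, sum_add_distrib, ← sum_filter, sum_const, smul_eq_mul,
      mul_one] at h3
    have h4 := card_col (F := F) S w
    unfold col at h4
    rw [mul_comm] at h3
    omega
  calc NN D S B w * Fintype.card F ^ (Module.finrank F (SP F S w) * Sᶜ.card)
      ≤ NN D S B w * Fintype.card F ^
        ((∑ i ∈ Sᶜ, Module.finrank F (SQ F S w i)) + Module.finrank F E) :=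
        Nat.mul_le_mul_left _ (Nat.pow_le_pow_right Fintype.card_pos h2)
    _ = (NN D S B w * Fintype.card F ^ (∑ i ∈ Sᶜ, Module.finrank F (SQ F S w i))) *
        Fintype.card F ^ Module.finrank F E := by rw [pow_add, mul_assoc]
    _ ≤ _ := Nat.mul_le_mul_right _ h1

/-- the bound without coloops -/
theorem NN_two (D : J → E →ₗ[F] E) (S : Finset J) (B : J → J → F) {w : J → E}
    (hc : col F S w = ∅) :
    NN D S B w * Fintype.card F ^ (Module.finrank F (SP F S w) * Sᶜ.card) ≤
      (Fintype.card F ^ Fintype.card J) ^ Fintype.card J := by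
  have h1 := NN_gen D S B w
  have h2 : ∑ i ∈ Sᶜ, Module.finrank F (SQ F S w i) = Module.finrank F (SP F S w) * Sᶜ.card := by
    have h3 : ∀ i ∈ (Sᶜ : Finset J), Module.finrank F (SQ F S w i) =
        Module.finrank F (SP F S w) := by
      intro i hi
      rw [SQ_eq]
      by_contra h
      have : i ∈ col F S w := by
        unfold col
        rw [mem_filter]
        exact ⟨hi, h⟩
      rw [hc] at this
      exact absurd this (notMem_empty _)
    rw [sum_congr rfl h3, sum_const, smul_eq_mul, mul_comm]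
  rwa [h2] at h1

theorem NN_zero (D : J → E →ₗ[F] E) (S : Finset J) (B : J → J → F) (w : J → E) :
    NN D S B w ≤ (Fintype.card F ^ Fintype.card J) ^ Fintype.card J := by
  have h1 := NN_gen D S B w
  refine le_trans ?_ h1
  exact Nat.le_mul_of_pos_right _ (pow_pos Fintype.card_pos _)

theorem NN_row {D : J → E →ₗ[F] E} {S : Finset J} {B : J → J → F} {w : J → E}
    (h : NN D S B w ≠ 0) (i : J) : ∃ r : J → F, Er D (HG S B fun _ => r) w i = 0 := by
  unfold NN at h
  rw [prod_ne_zero_iff] at h
  obtain ⟨r, hr⟩ := card_pos.1 (Nat.pos_of_ne_zero (h i (mem_univ _)))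
  unfold TT at hr
  rw [mem_filter] at hr
  exact ⟨r, hr.2⟩

/-- no random vectors -/
theorem case_zero {D : J → E →ₗ[F] E} {S : Finset J} {B : J → J → F} {w : J → E}
    (inj2 : ∀ v : J → F, (∀ i, i ∉ S → v i = 0) → (∀ j, j ∉ S → ∑ i, v i * B j i = 0) → v = 0)
    (h : NN D S B w ≠ 0) (h0 : ∀ j, j ∉ S → w j = 0) : w = 0 := by
  have key : ∀ i, i ∉ S → ∑ j ∈ S, B i j • w j = 0 := by
    intro i hi
    obtain ⟨r, hr⟩ := NN_row h i
    rw [eqn_row D S B w hi] at hr
    have f1 : rowL S w i r = 0 := by
      rw [rowL_apply]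
      refine sum_eq_zero fun j _ => ?_
      by_cases hj : j = i ∨ j ∈ S
      · rw [if_pos hj]
      · rw [if_neg hj]
        push Not at hj
        rw [h0 j hj.2, smul_zero]
    rw [f1, zero_add] at hr
    unfold rhs at hr
    rw [h0 i hi, map_zero, add_zero] at hr
    exact hr
  funext j
  show w j = 0
  rw [← Module.forall_dual_apply_eq_zero_iff F]
  intro φ
  have h1 := inj2 (fun i => φ (w i)) (fun i hi => by
    show φ (w i) = 0
    rw [h0 i hi, map_zero]) (by
    intro i hi
    have h2 := congrArg φ (key i hi)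
    rw [map_sum, map_zero] at h2
    rw [← sum_subset (subset_univ S)]
    · refine Eq.trans (sum_congr rfl fun j _ => ?_) h2
      rw [map_smul, smul_eq_mul, mul_comm]
    · intro j _ hj
      rw [h0 j hj, map_zero, zero_mul])
  exact congrFun h1 j

theorem dite_sum (S : Finset J) (y : S → F) (b : J → F) :
    ∑ i, (if h : i ∈ S then y ⟨i, h⟩ else 0) * b i = ∑ κ : S, y κ * b κ := by
  rw [← sum_subset (subset_univ S), ← sum_coe_sort S]
  · refine sum_congr rfl fun κ _ => ?_
    rw [dif_pos κ.2]
  · intro i _ hi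
    rw [dif_neg hi, zero_mul]

theorem surj (S : Finset J) (B : J → J → F) (inj1 : ∀ v : J → F, (∀ i, i ∉ S → v i = 0) →
    (∀ j, j ∉ S → ∑ i, v i * B i j = 0) → v = 0) (y : S → F) :
    ∃ x : (Sᶜ : Finset J) → F, ∀ κ : S, ∑ j : (Sᶜ : Finset J), B κ j * x j = y κ := by
  obtain ⟨M, hM⟩ : ∃ M : Matrix S (Sᶜ : Finset J) F, M = Matrix.of fun κ j => B κ.1 j.1 := ⟨_, rfl⟩
  have h1 : Function.Injective M.transpose.mulVecLin := by
    rw [← LinearMap.ker_eq_bot, LinearMap.ker_eq_bot']
    intro y hy
    have h2 := inj1 (fun i => if h : i ∈ S then y ⟨i, h⟩ else 0) (fun i hi => dif_neg hi) (by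
      intro j hj
      rw [dite_sum S y (fun i => B i j)]
      have h3 := congrFun hy ⟨j, mem_compl.2 hj⟩
      rw [Matrix.mulVecLin_apply, Matrix.mulVec, dotProduct] at h3
      refine Eq.trans (sum_congr rfl fun κ _ => ?_) h3
      rw [hM, Matrix.transpose_apply, Matrix.of_apply, mul_comm])
    funext κ
    have h3 := congrFun h2 κ
    rw [dif_pos κ.2] at h3
    exact h3
  have h2 : LinearMap.range M.mulVecLin = ⊤ := by
    apply Submodule.eq_top_of_finrank_eq
    have h3 := LinearMap.finrank_range_of_inj h1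
    have h4 := Matrix.rank_transpose M
    unfold Matrix.rank at h4
    rw [← h4, h3]
  obtain ⟨x, hx⟩ := LinearMap.range_eq_top.1 h2 y
  refine ⟨x, fun κ => ?_⟩
  rw [← hx, Matrix.mulVecLin_apply, Matrix.mulVec, dotProduct, hM]
  rfl

/-- the fixed rows -/
noncomputable def Th (D : J → E →ₗ[F] E) (S : Finset J) (B : J → J → F) :
    (J → E) →ₗ[F] (S → E) where
  toFun w κ := Er D (HG S B 0) w κ
  map_add' w w' := by
    funext κ
    show Er D (HG S B 0) (w + w') κ = Er D (HG S B 0) w κ + Er D (HG S B 0) w' κ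
    unfold Er
    simp only [Pi.add_apply, smul_add, sum_add_distrib, map_add]
    abel
  map_smul' t w := by
    funext κ
    show Er D (HG S B 0) (t • w) κ = t • Er D (HG S B 0) w κ
    unfold Er
    simp only [Pi.smul_apply, smul_add, Finset.smul_sum, map_smul]
    congr 1
    exact sum_congr rfl fun j _ => smul_comm _ _ _

theorem Th_surj (D : J → E →ₗ[F] E) (S : Finset J) (B : J → J → F)
    (inj1 : ∀ v : J → F, (∀ i, i ∉ S → v i = 0) →
    (∀ j, j ∉ S → ∑ i, v i * B i j = 0) → v = 0) : LinearMap.range (Th D S B) = ⊤ := by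
  rw [LinearMap.range_eq_top]
  intro t
  have h0 : ∀ κ' : S, ∃ x : (Sᶜ : Finset J) → F, ∀ κ : S,
      ∑ j : (Sᶜ : Finset J), B κ j * x j = if κ = κ' then 1 else 0 := fun κ' =>
    surj S B inj1 (fun κ => if κ = κ' then 1 else 0)
  choose X hX using h0
  obtain ⟨w, hw⟩ : ∃ w : J → E, w = fun j =>
    if h : j ∈ (Sᶜ : Finset J) then ∑ κ' : S, X κ' ⟨j, h⟩ • t κ' else 0 := ⟨_, rfl⟩
  refine ⟨w, ?_⟩
  funext κ
  have hκ : (κ : J) ∉ (Sᶜ : Finset J) := fun h => (mem_compl.1 h) κ.2
  have hwκ : w κ = 0 := by rw [hw]; exact dif_neg hκ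
  show Er D (HG S B 0) w κ = t κ
  unfold Er
  rw [hwκ, map_zero, add_zero]
  have h1 : ∑ j, (if j = (κ : J) then (0 : F) else HG S B 0 κ j) • w j =
      ∑ j : (Sᶜ : Finset J), B κ j • w j := by
    rw [← sum_subset (subset_univ (Sᶜ : Finset J)), ← sum_coe_sort (Sᶜ : Finset J)]
    · refine sum_congr rfl fun j _ => ?_
      have : (j : J) ≠ κ := fun h => hκ (h ▸ j.2)
      rw [if_neg this, HG, if_pos (Or.inl κ.2)]
    · intro i _ hi
      have : w i = 0 := by rw [hw]; exact dif_neg hi
      rw [this, smul_zero]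
  rw [h1]
  have h2 : ∀ j : (Sᶜ : Finset J), w j = ∑ κ' : S, X κ' j • t κ' := by
    intro j
    rw [hw]
    exact dif_pos j.2
  simp only [h2, Finset.smul_sum, smul_smul]
  rw [sum_comm]
  simp only [← sum_smul, hX]
  simp

theorem countA (D : J → E →ₗ[F] E) (S : Finset J) (B : J → J → F)
    (inj1 : ∀ v : J → F, (∀ i, i ∉ S → v i = 0) →
    (∀ j, j ∉ S → ∑ i, v i * B i j = 0) → v = 0) :
    (univ.filter fun w : J → E => NN D S B w ≠ 0).card ≤
      Fintype.card F ^ (Module.finrank F E * Sᶜ.card) := by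
  have hfin : Module.Finite F E := fin_inst
  have h1 : (univ.filter fun w : J → E => NN D S B w ≠ 0).card ≤
      Nat.card (LinearMap.ker (Th D S B)) := by
    rw [Nat.card_eq_fintype_card, Fintype.card_subtype]
    refine card_le_card fun w hw => ?_
    rw [mem_filter] at hw ⊢
    refine ⟨mem_univ _, ?_⟩
    rw [LinearMap.mem_ker]
    funext κ
    obtain ⟨r, hr⟩ := NN_row hw.2 κ
    show Er D (HG S B 0) w κ = 0
    rw [← hr]
    unfold Er HG
    simp only [κ.2, true_or, if_true]
  refine h1.trans (le_of_eq ?_)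
  rw [card_mod (F := F)]
  congr 1
  have h2 := LinearMap.finrank_range_add_finrank_ker (Th D S B)
  rw [Th_surj D S B inj1, finrank_top] at h2
  have h3 : Module.finrank F (J → E) = Fintype.card J * Module.finrank F E := by
    rw [Module.finrank_pi_fintype]
    simp
  have h4 : Module.finrank F (S → E) = S.card * Module.finrank F E := by
    rw [Module.finrank_pi_fintype]
    simp
  have h5 : S.card + Sᶜ.card = Fintype.card J := card_add_card_compl S
  rw [h3, h4, ← h5, add_mul] at h2
  rw [mul_comm (Module.finrank F E)]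
  omega

theorem card_E : Fintype.card E = Fintype.card F ^ Module.finrank F E := by
  have hfin : Module.Finite F E := fin_inst
  exact Module.card_eq_pow_finrank

/-- families with a coloop -/
theorem count1 (S : Finset J) (r : ℕ) :
    (univ.filter fun w : J → E => Module.finrank F (SP F S w) = r + 1 ∧ col F S w ≠ ∅).card ≤
      Sᶜ.card * Fintype.card F ^ (Module.finrank F E * r + (r * (Sᶜ.card - 1) +
        Module.finrank F E * (1 + S.card))) := by
  have hfin : Module.Finite F E := fin_inst
  have h1 : (univ.filter fun w : J → E => Module.finrank F (SP F S w) = r + 1 ∧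
      col F S w ≠ ∅) ⊆ (Sᶜ ×ˢ (univ : Finset (Fin r → E))).biUnion fun p =>
        Fintype.piFinset fun j => if j ∈ Sᶜ.erase p.1 then spn (F := F) p.2 else univ := by
    intro w hw
    rw [mem_filter] at hw
    obtain ⟨-, hw1, hw2⟩ := hw
    obtain ⟨i, hi⟩ := nonempty_iff_ne_empty.2 hw2
    unfold col at hi
    rw [mem_filter] at hi
    have hlt : SQ F S w i < SP F S w := by
      refine lt_of_le_of_ne (SQ_le S w i) fun h => hi.2 ?_
      rw [h]
      exact mem_SP (mem_compl.1 hi.1)
    have hr := Submodule.finrank_lt_finrank_of_lt hlt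
    obtain ⟨u, hu⟩ := exists_gens (SQ F S w i) (by omega : Module.finrank F (SQ F S w i) ≤ r)
    rw [mem_biUnion]
    refine ⟨(i, u), mem_product.2 ⟨hi.1, mem_univ _⟩, ?_⟩
    rw [Fintype.mem_piFinset]
    intro j
    by_cases hj : j ∈ Sᶜ.erase i
    · rw [if_pos hj, mem_spn, hu]
      rw [mem_erase, mem_compl] at hj
      exact mem_SQ hj.2 hj.1
    · rw [if_neg hj]
      exact mem_univ _
  refine (card_le_card h1).trans (card_biUnion_le.trans ?_)
  have h2 : ∀ p ∈ Sᶜ ×ˢ (univ : Finset (Fin r → E)),
      (Fintype.piFinset fun j : J => if j ∈ Sᶜ.erase p.1 then spn (F := F) p.2 else univ).card ≤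
      Fintype.card F ^ (r * (Sᶜ.card - 1) + Module.finrank F E * (1 + S.card)) := by
    intro p hp
    rw [mem_product] at hp
    rw [Fintype.card_piFinset]
    have e2 : ∏ j : J, (if j ∈ Sᶜ.erase p.1 then spn (F := F) p.2 else univ : Finset E).card ≤
        ∏ j : J, if j ∈ Sᶜ.erase p.1 then Fintype.card F ^ r else
          Fintype.card F ^ Module.finrank F E := by
      refine Finset.prod_le_prod (fun _ _ => Nat.zero_le _) fun j _ => ?_
      by_cases hj : j ∈ Sᶜ.erase p.1
      · rw [if_pos hj, if_pos hj]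
        exact card_spn _
      · rw [if_neg hj, if_neg hj, card_univ, card_E (F := F) (E := E)]
    refine e2.trans (le_of_eq ?_)
    rw [prod_ite, prod_const, prod_const, ← pow_mul, ← pow_mul, ← pow_add]
    have e3 : (univ.filter fun j => j ∈ Sᶜ.erase p.1) = Sᶜ.erase p.1 := by
      ext j
      simp
    have e4 : (univ.filter fun j => ¬ j ∈ Sᶜ.erase p.1) = (Sᶜ.erase p.1)ᶜ := by
      ext j
      simp only [mem_filter, mem_univ, true_and, mem_compl]
    rw [e3, e4, card_compl, card_erase_of_mem hp.1]
    congr 2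
    have h5 : S.card + Sᶜ.card = Fintype.card J := card_add_card_compl S
    have h6 : 0 < Sᶜ.card := card_pos.2 ⟨p.1, hp.1⟩
    congr 1
    omega
  refine (sum_le_sum h2).trans (le_of_eq ?_)
  rw [sum_const, card_product, card_univ, Fintype.card_fun, card_E (F := F) (E := E), Fintype.card_fin,
    smul_eq_mul, mul_assoc, ← pow_mul, ← pow_add]

/-- families that span a proper subspace, given generators -/
theorem count2u (D : J → E →ₗ[F] E) (S : Finset J) (B : J → J → F) {r m : ℕ}
    (hr : 1 ≤ r) (u : Fin r → E)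
    (hm : m ≤ (Sᶜ.filter fun i => ¬ ∀ v ∈ Submodule.span F (Set.range u),
      D i v ∈ Submodule.span F (Set.range u)).card) :
    (univ.filter fun w : J → E => NN D S B w ≠ 0 ∧
      SP F S w = Submodule.span F (Set.range u)).card * Fintype.card F ^ m ≤
      Fintype.card F ^ (Module.finrank F E * S.card + r * Sᶜ.card) := by
  have hfin : Module.Finite F E := fin_inst
  obtain ⟨L, hL⟩ : ∃ L : Submodule F E, L = Submodule.span F (Set.range u) := ⟨_, rfl⟩
  rw [← hL] at hm ⊢
  obtain ⟨Gd, hGd⟩ : ∃ Gd : Finset J, Gd = Sᶜ.filter fun i => ¬ ∀ v ∈ L, D i v ∈ L := ⟨_, rfl⟩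
  rw [← hGd] at hm
  have hsub : Gd ⊆ Sᶜ := by rw [hGd]; exact filter_subset _ _
  have hLr : Module.finrank F L ≤ r := by
    rw [hL]
    have := finrank_range_le_card (R := F) u
    rwa [Fintype.card_fin] at this
  -- the possible values
  have hval : ∀ (t : E) (i : J), (univ.filter fun v : E => v ∈ L ∧ t + D i v ∈ L).card ≤
      if i ∈ Gd then Fintype.card F ^ (r - 1) else Fintype.card F ^ r := by
    intro t i
    obtain ⟨R, hR⟩ : ∃ R : Submodule F E, R = L ⊓ L.comap (D i) := ⟨_, rfl⟩
    have h1 : (univ.filter fun v : E => v ∈ L ∧ t + D i v ∈ L).card ≤ Nat.card R := by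
      rcases (univ.filter fun v : E => v ∈ L ∧ t + D i v ∈ L).eq_empty_or_nonempty with h | ⟨v0, hv0⟩
      · rw [h, card_empty]
        exact Nat.zero_le _
      · rw [mem_filter] at hv0
        rw [Nat.card_eq_fintype_card, Fintype.card_subtype]
        refine card_le_card_of_injOn (fun v => v - v0) ?_ ?_
        · intro v hv
          rw [mem_coe, mem_filter] at hv ⊢
          refine ⟨mem_univ _, ?_⟩
          rw [hR, Submodule.mem_inf, Submodule.mem_comap]
          refine ⟨L.sub_mem hv.2.1 hv0.2.1, ?_⟩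
          have h2 := L.sub_mem hv.2.2 hv0.2.2
          rw [add_sub_add_left_eq_sub] at h2
          rw [map_sub]
          exact h2
        · intro v _ v' _ h
          exact sub_left_injective h
    refine h1.trans ?_
    rw [card_mod (F := F) R]
    by_cases hi : i ∈ Gd
    · rw [if_pos hi]
      rw [hGd, mem_filter] at hi
      have hlt : R < L := by
        refine lt_of_le_of_ne (by rw [hR]; exact inf_le_left) fun h => hi.2 fun v hv => ?_
        rw [← h, hR, Submodule.mem_inf, Submodule.mem_comap] at hv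
        exact hv.2
      have h2 := Submodule.finrank_lt_finrank_of_lt hlt
      exact Nat.pow_le_pow_right Fintype.card_pos (by omega)
    · rw [if_neg hi]
      have hle : R ≤ L := by rw [hR]; exact inf_le_left
      have h2 := Submodule.finrank_mono hle
      exact Nat.pow_le_pow_right Fintype.card_pos (by omega)
  -- the fibres
  obtain ⟨rs, hrs⟩ : ∃ rs : (J → E) → (S → E), ∀ w κ, rs w κ = w κ := ⟨fun w κ => w κ, fun _ _ => rfl⟩
  have hfib : (univ.filter fun w : J → E => NN D S B w ≠ 0 ∧ SP F S w = L).card ≤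
      Fintype.card F ^ (r * Sᶜ.card - Gd.card) * (univ : Finset (S → E)).card := by
    refine card_le_mul_card_image_of_maps_to (f := rs) (fun _ _ => mem_univ _) _ fun y _ => ?_
    have h1 : ((univ.filter fun w : J → E => NN D S B w ≠ 0 ∧ SP F S w = L).filter
        fun w => rs w = y) ⊆ Fintype.piFinset fun i =>
        if h : i ∈ S then {y ⟨i, h⟩} else
          univ.filter fun v : E => v ∈ L ∧ (∑ κ : S, B i κ • y κ) + D i v ∈ L := by
      intro w hw
      rw [mem_filter, mem_filter] at hw
      obtain ⟨⟨-, hw1, hw2⟩, hw3⟩ := hw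
      rw [Fintype.mem_piFinset]
      intro i
      by_cases hi : i ∈ S
      · rw [dif_pos hi, mem_singleton, ← hw3, hrs]
      · rw [dif_neg hi, mem_filter]
        have hwi : w i ∈ L := by
          rw [← hw2]
          exact mem_SP hi
        refine ⟨mem_univ _, hwi, ?_⟩
        obtain ⟨s, hs⟩ := NN_row hw1 i
        rw [eqn_row D S B w hi] at hs
        have h2 : rowL S w i s ∈ L := by
          rw [rowL_apply]
          refine Submodule.sum_mem _ fun j _ => ?_
          by_cases hj : j = i ∨ j ∈ S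
          · rw [if_pos hj]
            exact L.zero_mem
          · rw [if_neg hj]
            push Not at hj
            refine L.smul_mem _ ?_
            rw [← hw2]
            exact mem_SP hj.2
        have h3 : rhs D S B w i ∈ L := by
          rw [eq_neg_of_add_eq_zero_right hs]
          exact L.neg_mem h2
        unfold rhs at h3
        have h4 : ∑ κ : S, B i κ • y κ = ∑ j ∈ S, B i j • w j := by
          rw [← sum_coe_sort S]
          refine sum_congr rfl fun κ _ => ?_
          rw [← hw3, hrs]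
        rw [h4]
        exact h3
    refine (card_le_card h1).trans ?_
    rw [Fintype.card_piFinset]
    have e2 : ∏ i : J, (if h : i ∈ S then {y ⟨i, h⟩} else
          univ.filter fun v : E => v ∈ L ∧ (∑ κ : S, B i κ • y κ) + D i v ∈ L : Finset E).card ≤
        ∏ i : J, if i ∈ Sᶜ then (if i ∈ Gd then Fintype.card F ^ (r - 1) else
          Fintype.card F ^ r) else 1 := by
      refine Finset.prod_le_prod (fun _ _ => Nat.zero_le _) fun i _ => ?_
      by_cases hi : i ∈ S
      · rw [dif_pos hi, if_neg (fun h => (mem_compl.1 h) hi), card_singleton]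
      · rw [dif_neg hi, if_pos (mem_compl.2 hi)]
        exact hval _ i
    refine e2.trans ?_
    rw [prod_ite_mem, univ_inter, prod_ite, prod_const, prod_const, ← pow_mul, ← pow_mul,
      ← pow_add]
    have e3 : (Sᶜ.filter fun i => i ∈ Gd) = Gd := by
      ext i
      rw [mem_filter]
      exact ⟨fun h => h.2, fun h => ⟨hsub h, h⟩⟩
    have e4 : (Sᶜ.filter fun i => i ∈ Gd).card + (Sᶜ.filter fun i => ¬ i ∈ Gd).card = Sᶜ.card :=
      card_filter_add_card_filter_not _
    rw [e3] at e4 ⊢
    refine Nat.pow_le_pow_right Fintype.card_pos ?_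
    obtain ⟨r', rfl⟩ : ∃ r', r = r' + 1 := ⟨r - 1, by omega⟩
    rw [← e4]
    have e5 : r' + 1 - 1 = r' := by omega
    rw [e5]
    have e6 : (r' + 1) * (Gd.card + (Sᶜ.filter fun i => ¬ i ∈ Gd).card) =
        r' * Gd.card + (r' + 1) * (Sᶜ.filter fun i => ¬ i ∈ Gd).card + Gd.card := by ring
    rw [e6, Nat.add_sub_cancel]
  rw [card_univ, Fintype.card_fun, card_E (F := F) (E := E), Fintype.card_coe, ← pow_mul, ← pow_add] at hfib
  calc _ ≤ Fintype.card F ^ (r * Sᶜ.card - Gd.card + Module.finrank F E * S.card) *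
        Fintype.card F ^ m := Nat.mul_le_mul_right _ hfib
    _ = Fintype.card F ^ (r * Sᶜ.card - Gd.card + Module.finrank F E * S.card + m) :=
        (pow_add _ _ _).symm
    _ ≤ _ := by
        refine Nat.pow_le_pow_right Fintype.card_pos ?_
        have h1 := card_le_card hsub
        have h2 : Sᶜ.card ≤ r * Sᶜ.card := Nat.le_mul_of_pos_left _ hr
        omega

/-- families that span a proper subspace -/
theorem count2 (D : J → E →ₗ[F] E) (S : Finset J) (B : J → J → F) {r m : ℕ}
    (hr : 1 ≤ r) (hrE : r < Module.finrank F E)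
    (hm : ∀ L : Submodule F E, L ≠ ⊥ → L ≠ ⊤ →
      m ≤ (Sᶜ.filter fun i => ¬ ∀ v ∈ L, D i v ∈ L).card) :
    (univ.filter fun w : J → E => NN D S B w ≠ 0 ∧ Module.finrank F (SP F S w) = r).card *
      Fintype.card F ^ m ≤
      Fintype.card F ^ (Module.finrank F E * r + (Module.finrank F E * S.card + r * Sᶜ.card)) := by
  have hfin : Module.Finite F E := fin_inst
  obtain ⟨UU, hUU⟩ : ∃ UU : Finset (Fin r → E), UU = univ.filter fun u : Fin r → E =>
    Module.finrank F (Submodule.span F (Set.range u)) = r := ⟨_, rfl⟩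
  have h1 : (univ.filter fun w : J → E => NN D S B w ≠ 0 ∧
      Module.finrank F (SP F S w) = r) ⊆ UU.biUnion fun u =>
        univ.filter fun w : J → E => NN D S B w ≠ 0 ∧
          SP F S w = Submodule.span F (Set.range u) := by
    intro w hw
    rw [mem_filter] at hw
    obtain ⟨-, hw1, hw2⟩ := hw
    obtain ⟨u, hu⟩ := exists_gens (SP F S w) hw2.le
    rw [mem_biUnion]
    refine ⟨u, ?_, ?_⟩
    · rw [hUU, mem_filter]
      refine ⟨mem_univ _, ?_⟩
      rw [hu]
      exact hw2
    · rw [mem_filter]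
      exact ⟨mem_univ _, hw1, hu.symm⟩
  have h2 := (card_le_card h1).trans card_biUnion_le
  calc _ ≤ (∑ u ∈ UU, (univ.filter fun w : J → E => NN D S B w ≠ 0 ∧
          SP F S w = Submodule.span F (Set.range u)).card) * Fintype.card F ^ m :=
        Nat.mul_le_mul_right _ h2
    _ ≤ ∑ u ∈ UU, Fintype.card F ^ (Module.finrank F E * S.card + r * Sᶜ.card) := by
        rw [sum_mul]
        refine sum_le_sum fun u hu => ?_
        rw [hUU, mem_filter] at hu
        refine count2u D S B hr u (hm _ ?_ ?_)
        · intro h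
          rw [h, finrank_bot] at hu
          omega
        · intro h
          rw [h, finrank_top] at hu
          omega
    _ ≤ ∑ u : Fin r → E, Fintype.card F ^ (Module.finrank F E * S.card + r * Sᶜ.card) :=
        sum_le_sum_of_subset (subset_univ _)
    _ = _ := by
        rw [sum_const, card_univ, Fintype.card_fun, card_E (F := F) (E := E), Fintype.card_fin,
          smul_eq_mul, ← pow_mul, ← pow_add]

end abs

theorem num1 {q l s m : ℕ} (hq : 4 ≤ q)
    (hl : 4 * (m + 1) * s + 16 * (m + 1) ^ 2 + 64 ≤ l) :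
    16 * (m + 1) * l * q ^ (m * m + m + m * s) ≤ q ^ l := by
  have h1 : l ≤ 4 ^ (l / 2) := by
    have h2 : l < 2 ^ l := Nat.lt_two_pow_self
    have h3 : ∀ k : ℕ, 2 * k + 2 ≤ 2 * 4 ^ k := by
      intro k
      induction k with
      | zero => norm_num
      | succ k ih =>
        rw [pow_succ]
        omega
    have h4 := h3 (l / 2)
    have h5 : l < 2 * (l / 2) + 2 := by omega
    have h6 : 2 ≤ l / 2 := by
      have : 64 ≤ l := le_trans (by omega) hl
      omega
    have h7 : ∀ k : ℕ, 2 ≤ k → 2 * k + 1 ≤ 4 ^ k := by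
      intro k hk
      induction k, hk using Nat.le_induction with
      | base => norm_num
      | succ k hk ih =>
        rw [pow_succ]
        omega
    have h8 := h7 (l / 2) h6
    omega
  have h2 : m + 1 ≤ 4 ^ (m + 1) := by
    have h3 : m + 1 < 4 ^ (m + 1) := Nat.lt_pow_self (by norm_num)
    exact h3.le
  have h3 : 16 * (m + 1) * l ≤ 4 ^ (2 + (m + 1) + l / 2) := by
    have h4 : (16 : ℕ) = 4 ^ 2 := by norm_num
    calc 16 * (m + 1) * l ≤ 16 * 4 ^ (m + 1) * 4 ^ (l / 2) :=
          Nat.mul_le_mul (Nat.mul_le_mul_left _ h2) h1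
      _ = _ := by rw [h4, ← pow_add, ← pow_add]
  calc 16 * (m + 1) * l * q ^ (m * m + m + m * s)
      ≤ q ^ (2 + (m + 1) + l / 2) * q ^ (m * m + m + m * s) :=
        Nat.mul_le_mul_right _ (h3.trans (Nat.pow_le_pow_left hq _))
    _ = q ^ (2 + (m + 1) + l / 2 + (m * m + m + m * s)) := (pow_add _ _ _).symm
    _ ≤ q ^ l := by
        refine Nat.pow_le_pow_right (by omega) ?_
        have h4 : l / 2 * 2 ≤ l := Nat.div_mul_le_self l 2
        have h5 : 2 * (2 + (m + 1) + (m * m + m + m * s)) ≤ l := by nlinarith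
        omega

theorem num2 {q s m : ℕ} (hq : 4 ≤ q) :
    16 * (m + 1) * q ^ (m * m + m * s) ≤ q ^ (4 * (m + 1) * s + 16 * (m + 1) ^ 2 + 64) := by
  have h2 : m + 1 ≤ 4 ^ (m + 1) := by
    have h3 : m + 1 < 4 ^ (m + 1) := Nat.lt_pow_self (by norm_num)
    exact h3.le
  have h3 : 16 * (m + 1) ≤ 4 ^ (2 + (m + 1)) := by
    have h4 : (16 : ℕ) = 4 ^ 2 := by norm_num
    calc 16 * (m + 1) ≤ 16 * 4 ^ (m + 1) := Nat.mul_le_mul_left _ h2
      _ = _ := by rw [h4, ← pow_add]
  calc 16 * (m + 1) * q ^ (m * m + m * s)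
      ≤ q ^ (2 + (m + 1)) * q ^ (m * m + m * s) :=
        Nat.mul_le_mul_right _ (h3.trans (Nat.pow_le_pow_left hq _))
    _ = q ^ (2 + (m + 1) + (m * m + m * s)) := (pow_add _ _ _).symm
    _ ≤ _ := Nat.pow_le_pow_right (by omega) (by nlinarith)

end Pool.Agent.Q241.GJ.LAG
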