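import Pool.Agent.Q269.GJ.Lin

/-!
# Project GJ (helper269), job GJ-TWA: the abstract part
-/

set_option autoImplicit false
set_option linter.all false

open scoped Classical
open Finset

namespace Pool.Agent.Q241.GJ.TW

open Pool.Agent.Q269.GJ
open Pool.Agent.Q269.GR (F2 cf)

variable {X F : Type} [Field F] [Algebra F2 F] {n : ℕ}

theorem cf_add (x y : F2) : (cf (x + y) : F) = cf x + cf y := map_add (algebraMap F2 F) x y

theorem cf_mul (x y : F2) : (cf (x * y) : F) = cf x * cf y := map_mul (algebraMap F2 F) x y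

theorem cf_zero : (cf (0 : F2) : F) = 0 := map_zero (algebraMap F2 F)

theorem cf_sum {ι : Type} (s : Finset ι) (f : ι → F2) : (cf (∑ i ∈ s, f i) : F) = ∑ i ∈ s, cf (f i) :=
  map_sum (algebraMap F2 F) f s

theorem lap_cf (x : Fin n → Fin n → F2) (v : Fin n → F2) (l : Fin n) :
    (cf (lap x v l) : F) = lap x (fun l' => (cf (v l') : F)) l := by
  unfold lap
  rw [cf_sum]
  refine sum_congr rfl fun l' _ => ?_
  rw [cf_mul, cf_add]
  rfl

theorem iter_S {S : Finset X} {p : X → X} (hS : ∀ T ∈ S, p T ∈ S) (c : ℕ) :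
    ∀ T ∈ S, p^[c] T ∈ S := by
  induction c with
  | zero => intro T hT; exact hT
  | succ c ih =>
    intro T hT
    rw [Function.iterate_succ_apply]
    exact ih _ (hS T hT)

theorem iter_inv {Y : Type} {S : Finset X} {p : X → X} (hS : ∀ T ∈ S, p T ∈ S) {f : X → Y}
    (hf : ∀ T ∈ S, f (p T) = f T) (c : ℕ) : ∀ T ∈ S, f (p^[c] T) = f T := by
  induction c with
  | zero => intro T hT; rfl
  | succ c ih =>
    intro T hT
    rw [Function.iterate_succ_apply, ih _ (hS T hT), hf T hT]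

theorem iter_inv2 {Y : Type} {S : Finset X} {p : X → X} (hS : ∀ T ∈ S, p T ∈ S) {f : X → X → Y}
    (hf : ∀ T' ∈ S, ∀ T ∈ S, f (p T') (p T) = f T' T) (c : ℕ) :
    ∀ T' ∈ S, ∀ T ∈ S, f (p^[c] T') (p^[c] T) = f T' T := by
  induction c with
  | zero => intro T' hT' T hT; rfl
  | succ c ih =>
    intro T' hT' T hT
    rw [Function.iterate_succ_apply, Function.iterate_succ_apply, ih _ (hS T' hT') _ (hS T hT),
      hf T' hT' T hT]

/-- the twisted sums satisfy the homogeneous equations -/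
theorem abs_tw (S : Finset X) (p : X → X) (hinj : Function.Injective p) (hS : ∀ T ∈ S, p T ∈ S)
    (cc : X → X → F2) (x : X → Fin n → Fin n → F2) (K : X → Fin n → F2)
    (hc : ∀ T' ∈ S, ∀ T ∈ S, cc (p T') (p T) = cc T' T) (hx : ∀ T ∈ S, x (p T) = x T)
    (hK : ∀ T ∈ S, K (p T) = K T) (v : X → Fin n → F2)
    (heq : ∀ T ∈ S, ∀ l, ∑ T' ∈ S, cc T' T * (v T' l + v T l) + lap (x T) (v T) l + K T l = 0)
    (e : ℕ) (η : F) (hη : ∑ c ∈ range e, η ^ c = 0) :
    ∀ T ∈ S, ∀ l, ∑ T' ∈ S, (cf (cc T' T) : F) * (∑ c ∈ range e, η ^ c * cf (v (p^[c] T') l) +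
        ∑ c ∈ range e, η ^ c * cf (v (p^[c] T) l)) +
      lap (x T) (fun l => ∑ c ∈ range e, η ^ c * (cf (v (p^[c] T) l) : F)) l = 0 := by
  intro T hT l
  have key : ∀ c : ℕ, ∑ T' ∈ S, (cf (cc T' T) : F) * (cf (v (p^[c] T') l) + cf (v (p^[c] T) l)) +
      lap (x T) (fun l => (cf (v (p^[c] T) l) : F)) l = - cf (K T l) := by
    intro c
    have h1 := congrArg (fun z : F2 => (cf z : F)) (heq _ (iter_S hS c T hT) l)
    simp only [cf_zero, cf_add, cf_sum, cf_mul, lap_cf] at h1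
    rw [iter_inv hS hx c T hT, iter_inv hS hK c T hT] at h1
    rw [← eq_neg_iff_add_eq_zero] at h1
    rw [← h1]
    congr 1
    refine Finset.sum_nbij (fun T' => p^[c] T') ?_ ?_ ?_ ?_
    · intro T' hT'
      exact iter_S hS c T' hT'
    · intro a _ b _ hab
      exact (hinj.iterate c) hab
    · exact Finset.surjOn_of_injOn_of_card_le (s := S) (t := S) (fun T' => p^[c] T')
        (fun T' hT' => iter_S hS c T' hT') (fun a _ b _ hab => (hinj.iterate c) hab) le_rfl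
    · intro T' hT'
      rw [iter_inv2 hS hc c T' hT' T hT]
  have hsum : ∑ c ∈ range e, η ^ c * (∑ T' ∈ S, (cf (cc T' T) : F) * (cf (v (p^[c] T') l) +
      cf (v (p^[c] T) l)) + lap (x T) (fun l => (cf (v (p^[c] T) l) : F)) l) = 0 := by
    have h2 : ∀ c ∈ range e, η ^ c * (∑ T' ∈ S, (cf (cc T' T) : F) * (cf (v (p^[c] T') l) +
        cf (v (p^[c] T) l)) + lap (x T) (fun l => (cf (v (p^[c] T) l) : F)) l) =
        η ^ c * (- cf (K T l)) := fun c _ => by rw [key c]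
    rw [sum_congr rfl h2, ← sum_mul, hη, zero_mul]
  rw [← hsum]
  simp only [mul_add, sum_add_distrib]
  congr 1
  · simp only [← mul_add, ← sum_add_distrib]
    simp only [mul_sum]
    rw [sum_comm]
    refine sum_congr rfl fun c _ => ?_
    refine sum_congr rfl fun T' _ => ?_
    ring
  · unfold lap
    simp only [← mul_add, ← sum_add_distrib]
    simp only [mul_sum]
    rw [sum_comm]
    refine sum_congr rfl fun c _ => ?_
    refine sum_congr rfl fun l' _ => ?_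
    ring

/-- the behaviour under the permutation -/
theorem abs_eig (p : X → X) (v : X → F2) (e : ℕ) (hp : ∀ T, p^[e] T = T) (ξ : F) (hξ0 : ξ ≠ 0)
    (hξ : ξ ^ e = 1) (T : X) :
    ∑ c ∈ range e, (ξ⁻¹) ^ c * (cf (v (p^[c] (p T))) : F) =
      ξ * ∑ c ∈ range e, (ξ⁻¹) ^ c * cf (v (p^[c] T)) := by
  rw [mul_sum]
  have e1 : ∀ c : ℕ, ξ * ((ξ⁻¹) ^ (c + 1) * (cf (v (p^[c + 1] T)) : F)) =
      (ξ⁻¹) ^ c * cf (v (p^[c] (p T))) := by
    intro c
    rw [Function.iterate_succ_apply, ← mul_assoc]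
    congr 1
    rw [pow_succ]
    field_simp
  have e2 : ∑ c ∈ range (e + 1), ξ * ((ξ⁻¹) ^ c * (cf (v (p^[c] T)) : F)) =
      ∑ c ∈ range e, (ξ⁻¹) ^ c * cf (v (p^[c] (p T))) + ξ * cf (v T) := by
    rw [Finset.sum_range_succ']
    congr 1
    · exact Finset.sum_congr rfl fun c _ => e1 c
    · simp
  have e3 : ∑ c ∈ range (e + 1), ξ * ((ξ⁻¹) ^ c * (cf (v (p^[c] T)) : F)) =
      ∑ c ∈ range e, ξ * ((ξ⁻¹) ^ c * cf (v (p^[c] T))) + ξ * cf (v T) := by
    rw [Finset.sum_range_succ, hp T, inv_pow, hξ, inv_one, one_mul]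
  exact add_right_cancel (e2.symm.trans e3)

theorem geom_zero {ξ : F} {e : ℕ} (hξ : ξ ^ e = 1) (h1 : ξ ≠ 1) : ∑ c ∈ range e, (ξ⁻¹) ^ c = 0 := by
  have h5 := mul_neg_geom_sum (ξ⁻¹) e
  rw [inv_pow, hξ, inv_one, sub_self] at h5
  rcases mul_eq_zero.1 h5 with h | h
  · exfalso
    apply h1
    have h6 : ξ⁻¹ = 1 := (sub_eq_zero.1 h).symm
    exact inv_eq_one.1 h6
  · exact h

end Pool.Agent.Q241.GJ.TW
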