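import Pool.Agent.Q269.GJ.StF
import Pool.Agent.Q251.GR.WPA0
import Pool.Agent.Q241.GJ.TWAa

/-!
# Project GJ (helper269), job GJ-TWA: the equations of the twisted sums
-/

set_option autoImplicit false
set_option linter.all false

open scoped Classical
open Finset Polynomial

namespace Pool.Agent.Q241.GJ

open Pool.Agent.Q269.GJ
open Pool.Agent.Q269.GR (F2 cf Irn Dn pr Om fr ph fp rt IsSg)
open Pool.Agent.Y164.PS (L)
open Pool.Agent.Y164.HG (Geo Del Tau QQ EW e2)
open Pool.Agent.Q251.GR (mem_pr' ex_sg ph_it_inj ph_inj ph_dvd)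

theorem vx_mem {k : Type} [Field k] [Fintype k] {n : ℕ} {τ : Type} (D : k[X])
    (w : Y164.HG.V (EW n) (Ip D) τ) (T : k[X]) (h : T ∈ pr D) (l : Fin n) :
    vx D w T l = (w.1 ⟨T, h⟩).1 l := by
  unfold vx
  rw [dif_pos h]

theorem vx_sum {k : Type} [Field k] [Fintype k] {n : ℕ} {τ : Type} (D : k[X])
    (w : Y164.HG.V (EW n) (Ip D) τ) (T : k[X]) : ∑ l, vx D w T l = 0 := by
  by_cases h : T ∈ pr D
  · rw [sum_congr rfl fun l _ => vx_mem D w T h l]
    exact (w.1 ⟨T, h⟩).2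
  · unfold vx
    simp only [dif_neg h]
    exact sum_const_zero

/-- the equation of a class, with sums over the set of the primes -/
theorem EQ1_eq {k : Type} [Field k] [Fintype k] {n : ℕ} {a : Fin n → k[X]} {N : ℕ} (H : Geo a N)
    (D : k[X]) (w : Y164.HG.V (EW n) (Ip D) (Tau a)) (x0 : EW n) (T : k[X]) (hT : T ∈ pr D) (l : Fin n) :
    EQ1 H D w x0 ⟨T, hT⟩ l = ∑ T' ∈ pr D, L T' T * (vx D w T' l + vx D w T l) +
      lap (xb a T) (vx D w T) l +
      (∑ s : Tau a, L (QQ a s) T * (w.2 s * e2 (H.p s) (H.q s) l) + (T.natDegree : F2) * x0.1 l) := by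
  unfold EQ1
  rw [← Finset.sum_coe_sort (pr D) (fun T' => L T' T * (vx D w T' l + vx D w T l))]
  have h1 : (fun l => vx D w T l) = (w.1 ⟨T, hT⟩).1 := funext fun l => vx_mem D w T hT l
  have h2 : ∀ P' : Ip D, L P'.1 T * ((w.1 P').1 l + (w.1 ⟨T, hT⟩).1 l) =
      L P'.1 T * (vx D w P'.1 l + vx D w T l) := by
    intro P'
    rw [vx_mem D w T hT, vx_mem D w P'.1 P'.2]
  rw [sum_congr rfl fun P' _ => h2 P', ← h1]
  show _ + _ + _ + _ = _ + _ + (_ + _)
  rw [add_assoc (_ + _)]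

/-- `ph` permutes the primes of the image of a polynomial -/
theorem ph_mem {k k' : Type} [Field k] [Fintype k] [Field k'] [Fintype k'] [Algebra k k'] (h3 : Pool.Agent.Q269.GR.S_PAS)
    {D : k[X]} (hD : D ≠ 0) {T : k'[X]} (hT : T ∈ pr (D.map (algebraMap k k'))) :
    ph k T ∈ pr (D.map (algebraMap k k')) := by
  obtain ⟨σ, hσ⟩ := ex_sg k k' (RatFunc k')
  obtain ⟨-, p2, p3, p4, p5⟩ := h3 k k' (RatFunc k') σ hσ
  have hD0 : D.map (algebraMap k k') ≠ 0 := by
    intro h0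
    exact hD ((Polynomial.map_eq_zero_iff (algebraMap k k').injective).1 h0)
  rw [mem_pr' hD0] at hT ⊢
  obtain ⟨h5, h6, h7⟩ := hT
  obtain ⟨h8, h9, -⟩ := p5 T h5 h6
  refine ⟨h8, h9, ?_⟩
  have h10 : ph k T ∣ ph k (D.map (algebraMap k k')) := ph_dvd h7
  rwa [p4 D] at h10

theorem t_TWA (h1 : S_HYM) (h2 : S_BAD) (h3 : Pool.Agent.Q269.GR.S_PAS) (h4 : Pool.Agent.Q269.GR.S_FCD) : S_TWA := by
  intro k k' _ _ _ _ _ n a N H H' HE m D hD w x0 hw F _ _ ξ hξe hξ1
  obtain ⟨σ, hσ⟩ := ex_sg k k' (RatFunc k')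
  obtain ⟨-, p2, p3, p4, p5⟩ := h3 k k' (RatFunc k') σ hσ
  haveI : Fact (Odd n) := ⟨H.hn⟩
  obtain ⟨β, hβ⟩ := h2 k k' n a N H H' HE
  have hDk : D ≠ 0 := by
    unfold Dn at hD
    rw [Finset.mem_filter] at hD
    exact hD.2.1.ne_zero
  have hD0 : D.map (algebraMap k k') ≠ 0 := by
    intro h0
    exact hDk ((Polynomial.map_eq_zero_iff (algebraMap k k').injective).1 h0)
  have he0 : Module.finrank k k' ≠ 0 := (Module.finrank_pos).ne'
  have hξ0 : ξ ≠ 0 := by
    rintro rfl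
    rw [zero_pow he0] at hξe
    exact zero_ne_one hξe
  have hS : ∀ T ∈ pr (D.map (algebraMap k k')), ph k T ∈ pr (D.map (algebraMap k k')) := fun T hT => ph_mem h3 hDk hT
  have hmi : ∀ T ∈ pr (D.map (algebraMap k k')), T.Monic ∧ Irreducible T := fun T hT =>
    ⟨((mem_pr' hD0 T).1 hT).1, ((mem_pr' hD0 T).1 hT).2.1⟩
  have hL : ∀ f : k'[X], ∀ T ∈ pr (D.map (algebraMap k k')), L (ph k f) (ph k T) = L f T := fun f T hT =>
    p3 H.hk f T (hmi T hT).1 (hmi T hT).2
  refine ⟨?_, ?_, ?_⟩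
  · have key := TW.abs_tw (F := F) (pr (D.map (algebraMap k k'))) (ph k : k'[X] → k'[X]) ph_inj hS (fun T' T => L T' T)
      (xb (am k' a)) (fun T l => ∑ s : Tau (am k' a), L (QQ (am k' a) s) T *
        (w.2 s * e2 (H'.p s) (H'.q s) l) + (T.natDegree : F2) * x0.1 l)
      (fun T' _ T hT => hL T' T hT) ?_ ?_ (vx (D.map (algebraMap k k')) w) ?_ (Module.finrank k k') ξ⁻¹
      (TW.geom_zero hξe hξ1)
    · exact key
    · -- the weights
      intro T hT
      funext l l'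
      have h5 := hL (am k' a l - am k' a l') T hT
      have h6 : am k' a l - am k' a l' = (a l - a l').map (algebraMap k k') := by
        unfold am
        rw [Polynomial.map_sub]
      rw [h6, p4] at h5
      unfold xb
      rw [h6]
      exact h5
    · -- the constant part
      intro T hT
      funext l
      have h7 : ∀ s : Tau (am k' a), L (QQ (am k' a) s) (ph k T) = L (QQ (am k' a) s) T := by
        intro s
        obtain ⟨s, rfl⟩ := β.surjective s
        obtain ⟨-, -, -, -, -, h8, -⟩ := hβ s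
        have h9 := hL (QQ (am k' a) (β s)) T hT
        rwa [h8] at h9
      have h10 : (ph k T).natDegree = T.natDegree := (p5 T (hmi T hT).1 (hmi T hT).2).2.2
      show ∑ s : Tau (am k' a), L (QQ (am k' a) s) (ph k T) * (w.2 s * e2 (H'.p s) (H'.q s) l) +
        ((ph k T).natDegree : F2) * x0.1 l = ∑ s : Tau (am k' a), L (QQ (am k' a) s) T *
        (w.2 s * e2 (H'.p s) (H'.q s) l) + (T.natDegree : F2) * x0.1 l
      rw [h10, sum_congr rfl fun s _ => by rw [h7 s]]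
    · intro T hT l
      rw [← hw ⟨T, hT⟩ l, EQ1_eq]
  · intro T l
    exact TW.abs_eig (ph k) (fun T => vx (D.map (algebraMap k k')) w T l) (Module.finrank k k') p2 ξ hξ0 hξe T
  · intro T
    unfold tv
    rw [sum_comm]
    refine sum_eq_zero fun c _ => ?_
    rw [← mul_sum, ← TW.cf_sum, vx_sum, TW.cf_zero, mul_zero]

end Pool.Agent.Q241.GJ
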