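import Pool.Agent.Q269.GJ.StF
import Pool.Agent.Q202.GR.WPB0
import Pool.Agent.Q241.GJ.TWAa

/-!
# Project GJ (helper269), job GJ-TWB: the twisted sums vanish if the kernel over `k` is zero
-/

set_option autoImplicit false
set_option linter.all false

open scoped Classical
open Finset Polynomial

namespace Pool.Agent.Q241.GJ

open Pool.Agent.Q269.GJ
open Pool.Agent.Q269.GR (F2 cf Irn Dn pr Om fr ph fp rt hv own)
open Pool.Agent.Y164.PS (L)
open Pool.Agent.Y164.HG (Geo Del Tau QQ EW e2)
open Pool.Agent.Q202.GR (mem_pr coprime_irr sum_J)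

theorem dbl {F : Type} [Field F] [Algebra F2 F] (x : F) : x + x = 0 := by
  have h : (cf (1 + 1 : F2) : F) = 0 := by
    have h1 : (1 + 1 : F2) = 0 := by decide
    rw [h1]
    exact TW.cf_zero
  have h2 : (cf (1 + 1 : F2) : F) = 1 + 1 := by
    rw [TW.cf_add]
    show algebraMap F2 F 1 + algebraMap F2 F 1 = 1 + 1
    rw [map_one]
  have h3 : (1 + 1 : F) = 0 := h2.symm.trans h
  calc x + x = (1 + 1) * x := by ring
    _ = 0 := by rw [h3, zero_mul]

theorem t_TWB (h1 : S_TWA) (h2 : Pool.Agent.Q269.GR.S_FCD) (h3 : Pool.Agent.Q269.GR.S_SYR)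
    (h4 : Pool.Agent.Q269.GR.S_FCT) : S_TWB := by
  intro k k' _ _ _ _ _ n a N H H' HE m D hD w x0 hw F _ _ ξ r hξ hr hre hK
  let j : k' →ₐ[k] Om k := IsAlgClosed.lift
  have hξr : ξ ^ r = 1 := by rw [← hξ]; exact pow_orderOf_eq_one ξ
  have hξe : ξ ^ Module.finrank k k' = 1 := by
    obtain ⟨m, hm⟩ := hre
    rw [hm, pow_mul, hξr, one_pow]
  have hξ1 : ξ ≠ 1 := by
    rintro rfl
    rw [orderOf_one] at hξ
    omega
  obtain ⟨hT, hW, hZ⟩ := h1 k k' n a N H H' HE m D hD w x0 hw F ξ hξe hξ1
  obtain ⟨f1, f2, -⟩ := h2 k k' j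
  have hD0 : D ≠ 0 := by
    rw [Dn, mem_filter] at hD
    exact hD.2.1.ne_zero
  -- the twisted sums as a function
  obtain ⟨W, hWdef⟩ : ∃ W : k'[X] → Fin n → F, W = fun T l => tv k ξ (D.map (algebraMap k k')) w T l :=
    ⟨_, rfl⟩
  have hT' : ∀ T ∈ pr (D.map (algebraMap k k')), ∀ l : Fin n,
      ∑ T' ∈ pr (D.map (algebraMap k k')), cf (L T' T) * (W T' l + W T l) +
        lap (xb (am k' a) T) (W T) l = 0 := by
    rw [hWdef]; exact hT
  have hW' : ∀ T l, W (ph k T) l = ξ * W T l := by rw [hWdef]; exact hW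
  have hZ' : ∀ T, ∑ l, W T l = 0 := by rw [hWdef]; exact hZ
  suffices hmain : ∀ T ∈ pr (D.map (algebraMap k k')), ∀ l : Fin n, W T l = 0 by
    rw [hWdef] at hmain; exact hmain
  clear hT hW hZ hWdef
  set e := Module.finrank k k' with he
  have hWi : ∀ (c : ℕ) (T : k'[X]) (l : Fin n), W ((ph k)^[c] T) l = ξ ^ c * W T l := by
    intro c T l
    induction c with
    | zero => simp
    | succ c ih =>
      rw [Function.iterate_succ_apply', pow_succ', mul_assoc, ← ih]
      exact hW' _ l
  have hs3 := h3 k k' j H.hk HE.odd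
  have hfc := fun P hP hP' => h4 k k' j P hP hP'
  -- the vanishing when `r` does not divide the degree
  have hW0 : ∀ P ∈ pr D, ¬ r ∣ P.natDegree → ∀ l, W (fp j P) l = 0 := by
    intro P hP hrd l
    obtain ⟨hm, hi⟩ := mem_pr hP
    obtain ⟨-, -, -, -, -, h6, -⟩ := hfc P hm hi
    have h7 : (ph k)^[Nat.gcd e P.natDegree] (fp j P) = (ph k)^[0] (fp j P) := by
      rw [h6]
      exact (Nat.modEq_zero_iff_dvd.2 dvd_rfl)
    rw [Function.iterate_zero, id] at h7
    have h8 := hWi (Nat.gcd e P.natDegree) (fp j P) l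
    rw [h7] at h8
    have h9 : ξ ^ Nat.gcd e P.natDegree ≠ 1 := by
      intro h
      have h10 := orderOf_dvd_of_pow_eq_one h
      rw [hξ] at h10
      exact hrd (h10.trans (Nat.gcd_dvd_right _ _))
    have h11 : (1 - ξ ^ Nat.gcd e P.natDegree) * W (fp j P) l = 0 := by
      rw [sub_mul, one_mul, ← h8, sub_self]
    rcases mul_eq_zero.1 h11 with h | h
    · exact absurd (sub_eq_zero.1 h).symm h9
    · exact h
  -- the vector of the twisted sums is in the kernel
  have hmem : (fun i : {i : {P : k[X] // P ∈ pr D} // r ∣ (i.1).natDegree} =>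
      (⟨W (fp j i.1.1), hZ' _⟩ : W0 n F)) ∈ KD r ξ a D := by
    intro i
    obtain ⟨⟨P, hP⟩, hrP⟩ := i
    obtain ⟨hm, hi⟩ := mem_pr hP
    obtain ⟨-, -, -, -, g5, g6, -⟩ := hfc P hm hi
    obtain ⟨s1, s2⟩ := hs3 P hm hi
    have hemem : fp j P ∈ pr (D.map (algebraMap k k')) := by
      rw [f1 D hD0, mem_biUnion]
      refine ⟨P, hP, ?_⟩
      rw [mem_image]
      refine ⟨0, ?_, rfl⟩
      rw [mem_range]
      exact Nat.gcd_pos_of_pos_right _ hi.natDegree_pos
    funext l
    have key := hT' (fp j P) hemem l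
    rw [f1 D hD0] at key
    rw [sum_biUnion] at key
    swap
    · intro P1 hP1 P2 hP2 hne
      rw [Function.onFun, disjoint_left]
      intro T hT1 hT2
      rw [mem_image] at hT1 hT2
      obtain ⟨c1, -, rfl⟩ := hT1
      obtain ⟨c2, -, hc2⟩ := hT2
      obtain ⟨m1, i1⟩ := mem_pr hP1
      obtain ⟨m2, i2⟩ := mem_pr hP2
      exact f2 P1 P2 m1 i1 m2 i2 hne c1 c2 hc2.symm
    have hinner : ∀ P2 ∈ pr D,
        ∑ T' ∈ (range (Nat.gcd e P2.natDegree)).image (fun c => (ph k)^[c] (fp j P2)),
          (cf (L T' (fp j P)) : F) * (W T' l + W (fp j P) l) =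
        if P2 = P then own r ξ P * W (fp j P) l else
          ((if r ∣ P2.natDegree then hv r ξ P2 P * W (fp j P2) l else 0) +
            (cf (L P2 P) : F) * W (fp j P) l) := by
      intro P2 hP2
      obtain ⟨m2, i2⟩ := mem_pr hP2
      obtain ⟨-, -, -, -, k5, k6, k7⟩ := hfc P2 m2 i2
      rw [sum_image]
      swap
      · intro c hc c' hc' hcc
        rw [coe_range, Set.mem_Iio] at hc hc'
        have := (k6 c c').1 hcc
        rw [Nat.ModEq, Nat.mod_eq_of_lt hc, Nat.mod_eq_of_lt hc'] at this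
        exact this
      by_cases hPP : P2 = P
      · subst hPP
        rw [if_pos rfl]
        have s3 := (s1 F ξ r (by omega) hξr hre hrP).2
        rw [← s3, sum_mul]
        refine sum_congr rfl fun c hc => ?_
        rw [mem_range] at hc
        by_cases hc0 : c = 0
        · subst hc0
          rw [if_pos rfl, zero_mul]
          show cf (L (fp j P2) (fp j P2)) * (W (fp j P2) l + W (fp j P2) l) = 0
          rw [dbl, mul_zero]
        · rw [if_neg hc0, hWi]
          ring
      · rw [if_neg hPP]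
        have hne : ∀ c, (ph k)^[c] (fp j P2) ≠ fp j P := fun c => f2 P2 P m2 i2 hm hi hPP c 0
        have e1 : ∀ c ∈ range (Nat.gcd e P2.natDegree),
            (cf (L ((ph k)^[c] (fp j P2)) (fp j P)) : F) *
              (W ((ph k)^[c] (fp j P2)) l + W (fp j P) l) =
            (cf (L ((ph k)^[c] (fp j P2)) (fp j P)) * ξ ^ c) * W (fp j P2) l +
              (cf (L ((ph k)^[c] (fp j P2)) (fp j P)) : F) * W (fp j P) l := by
          intro c _
          rw [hWi]
          ring
        rw [sum_congr rfl e1, sum_add_distrib, ← sum_mul, ← sum_mul]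
        have e2 : ∑ c ∈ range (Nat.gcd e P2.natDegree), (cf (L ((ph k)^[c] (fp j P2)) (fp j P)) : F) =
            cf (L P2 P) := by
          have : ∑ c ∈ range (Nat.gcd e P2.natDegree), (cf (L ((ph k)^[c] (fp j P2)) (fp j P)) : F) =
              cf (∑ c ∈ range (Nat.gcd e P2.natDegree), L ((ph k)^[c] (fp j P2)) (fp j P)) := by
            unfold cf
            rw [map_sum]
          rw [this, ← Pool.Agent.Y164.PS.L_prod_left, ← k7, s2]
          · exact (g5 0).2.ne_zero
          · intro c _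
            exact (k5 c).2.ne_zero
          · intro c _
            exact coprime_irr (k5 c).1 (g5 0).1 (k5 c).2 (g5 0).2 (hne c)
        rw [e2]
        congr 1
        by_cases hr2 : r ∣ P2.natDegree
        · rw [if_pos hr2]
          congr 1
          exact ((hs3 P2 m2 i2).1 F ξ r (by omega) hξr hre hr2).1 P hm hi hPP hrP
        · rw [if_neg hr2, hW0 P2 hP2 hr2, mul_zero]
    rw [sum_congr rfl hinner] at key
    have hxb : xb (am k' a) (fp j P) = xb a P := by
      funext l1 l2
      unfold xb am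
      rw [← Polynomial.map_sub]
      exact s2 _
    rw [hxb] at key
    have q1 : ∑ j' : {i : {P : k[X] // P ∈ pr D} // r ∣ (i.1).natDegree},
        (@ite F (j' = ⟨⟨P, hP⟩, hrP⟩) (Classical.propDecidable _) (0 : F) (hv r ξ j'.1.1 P)) *
          W (fp j j'.1.1) l =
        ∑ P2 ∈ pr D, if r ∣ P2.natDegree then
          (if P2 = P then (0 : F) else hv r ξ P2 P) * W (fp j P2) l else 0 := by
      rw [← sum_J D r (fun P2 => (if P2 = P then (0 : F) else hv r ξ P2 P) * W (fp j P2) l)]
      refine sum_congr rfl fun j' _ => ?_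
      congr 1
      by_cases h : j'.1.1 = P
      · rw [if_pos h, if_pos (Subtype.ext (Subtype.ext h))]
      · rw [if_neg h, if_neg]
        intro h'
        exact h (congrArg (fun z => z.1.1) h')
    have q2 : ∑ j' : {P : k[X] // P ∈ pr D}, (@ite Pool.Agent.Y164.PS.F2 (j' = ⟨P, hP⟩)
          (Classical.propDecidable _) (0 : Pool.Agent.Y164.PS.F2) (L j'.1 P)) =
        ∑ P2 ∈ pr D, if P2 = P then (0 : Pool.Agent.Y164.PS.F2) else L P2 P := by
      rw [← Finset.sum_coe_sort (pr D) (fun P2 => if P2 = P then (0 : Pool.Agent.Y164.PS.F2) else L P2 P)]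
      refine sum_congr rfl fun j' _ => ?_
      by_cases h : j'.1 = P
      · rw [if_pos h, if_pos (Subtype.ext h)]
      · rw [if_neg h, if_neg]
        intro h'
        exact h (congrArg (fun z => z.1) h')
    have q3 : ∑ x ∈ pr D, (if x = P then own r ξ P * W (fp j P) l else
        ((if r ∣ x.natDegree then hv r ξ x P * W (fp j x) l else 0) +
          (cf (L x P) : F) * W (fp j P) l)) =
        own r ξ P * W (fp j P) l + (∑ x ∈ pr D, if r ∣ x.natDegree then
          (if x = P then (0 : F) else hv r ξ x P) * W (fp j x) l else 0) +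
          (cf (∑ x ∈ pr D, if x = P then (0 : Pool.Agent.Y164.PS.F2) else L x P) : F) *
            W (fp j P) l := by
      have e4 : (cf (∑ x ∈ pr D, if x = P then (0 : Pool.Agent.Y164.PS.F2) else L x P) : F) =
          ∑ x ∈ pr D, (if x = P then (0 : F) else cf (L x P)) := by
        unfold cf
        rw [map_sum]
        refine sum_congr rfl fun x _ => ?_
        by_cases h : x = P
        · rw [if_pos h, if_pos h, map_zero]
        · rw [if_neg h, if_neg h]
      have e5 : own r ξ P * W (fp j P) l =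
          ∑ x ∈ pr D, if x = P then own r ξ P * W (fp j P) l else 0 := by
        rw [Finset.sum_ite_eq', if_pos hP]
      rw [e4, sum_mul, e5, ← sum_add_distrib, ← sum_add_distrib]
      refine sum_congr rfl fun x _ => ?_
      by_cases h : x = P
      · rw [if_pos h, if_pos h, if_pos h, if_pos h, zero_mul, ite_self, zero_mul, add_zero, add_zero,
          Finset.sum_ite_eq', if_pos hP]
      · rw [if_neg h, if_neg h, if_neg h, if_neg h, zero_add]
    refine Eq.trans ?_ key
    rw [q3]
    show (∑ j' : {i : {P : k[X] // P ∈ pr D} // r ∣ (i.1).natDegree},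
        (@ite F (j' = ⟨⟨P, hP⟩, hrP⟩) (Classical.propDecidable _) (0 : F) (hv r ξ j'.1.1 P)) •
          (W (fp j j'.1.1))) l +
        (own r ξ P + cf (∑ j' : {P : k[X] // P ∈ pr D}, (@ite Pool.Agent.Y164.PS.F2 (j' = ⟨P, hP⟩)
          (Classical.propDecidable _) (0 : Pool.Agent.Y164.PS.F2) (L j'.1 P)))) *
          W (fp j P) l + lap (xb a P) (W (fp j P)) l = _
    rw [Finset.sum_apply]
    simp only [Pi.smul_apply, smul_eq_mul]
    rw [q1, q2]
    ring
  -- conclusion
  rw [hK, Submodule.mem_bot] at hmem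
  have hall : ∀ P ∈ pr D, ∀ l, W (fp j P) l = 0 := by
    intro P hP l
    by_cases hrP : r ∣ P.natDegree
    · have h5 := congrFun hmem ⟨⟨P, hP⟩, hrP⟩
      have h6 := congrArg (fun z : W0 n F => z.1 l) h5
      exact h6
    · exact hW0 P hP hrP l
  intro T hTm l
  rw [f1 D hD0, mem_biUnion] at hTm
  obtain ⟨P, hP, hTm⟩ := hTm
  rw [mem_image] at hTm
  obtain ⟨c, -, rfl⟩ := hTm
  rw [hWi, hall P hP l, mul_zero]

end Pool.Agent.Q241.GJ
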